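import Pool.Agent.N685.WB.Basic

/-! Statements of the parts of the project WB (part of the project FT, helper685).  Each of them is the
analogue, for block weights with unbounded letters, of a statement of `Pool/Agent/Y966/NQ` (letter
weights, unbounded letters, truncated martingale `GG`) and of `Pool/Agent/Y966/UB` (blocks, bounded
letters, no truncation). -/

set_option autoImplicit false
set_option linter.unusedVariables false

namespace Pool.Agent.N685.WB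

open Finset Pool.Agent.H320R2.PD Pool.Agent.H377R2.NK

/-- TR: the truncation at size `M b k` is harmless (NQ/Zsub `exists_M`, `ZG_ge`) -/
def S_TR : Prop := ∀ (p : ℕ), (p = 3 ∨ p = 5) → ∀ (W : Alph p), ∃ M : ℕ, 1 ≤ M ∧
  ∀ q : ℕ, 2 ≤ q → ∀ A k m : ℕ,
    2 ^ q * Zb p W A m q ≤ 100 ^ k * Zb p W A (k + m) q →
      Zb p W A (k + m) q ≤ 2 ^ q * ZG p W M A k m q

/-- GW: the Gibbs law is a probability (NQ/LawR `Gw_nonneg`, `Gw_total`) -/
def S_GW : Prop := ∀ (p : ℕ), (p = 3 ∨ p = 5) → ∀ (W : Alph p) (M A k m q : ℕ), 2 ≤ q →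
  0 < ZG p W M A k m q →
    (∀ ω ∈ Gs p W M A k m, 0 ≤ Gw p W M A k m q ω) ∧
      ∑ ω ∈ Gs p W M A k m, Gw p W M A k m q ω = 1

/-- LX (NQ/Law2 `law_X`, UB/Law `law_X`; here the weights are at most `1`, so `L1` is `b log p`) -/
def S_LX : Prop := ∀ (p : ℕ), (p = 3 ∨ p = 5) → ∀ (W : Alph p) (M A k q : ℕ), 2 ≤ q → 1 ≤ A →
  0 < ZG p W M A k (M * k) q →
    (Real.log (Zb p W A k q) - k * (W.b * Real.log p)) / (q - 1) - 3 * GE p W M A k (M * k) q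
        - Real.log (M * (W.b * k) + 1)
      ≤ CE (Gs p W M A k (M * k)) (Gw p W M A k (M * k) q)
          (fun ω => GX p (W.b * k) ω % (p : ℤ) ^ (W.b * (M * k)))
          (fun ω => (GY p (W.b * k) ω % (p : ℤ) ^ (W.b * (M * k)), Gγ p (W.b * k) ω))

/-- LS (NQ/Law2 `law_sum`, UB/Law `law_sum`) -/
def S_LS : Prop := ∀ (p : ℕ), (p = 3 ∨ p = 5) → ∀ (W : Alph p) (M A k q : ℕ), 2 ≤ q → 1 ≤ A →
  0 < ZG p W M A k (M * k) q →
    CE (Gs p W M A k (M * k)) (Gw p W M A k (M * k) q)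
        (fun ω => (GX p (W.b * k) ω + GY p (W.b * k) ω) % (p : ℤ) ^ (W.b * (M * k)))
        (Gγ p (W.b * k))
      + 2 * CE (Gs p W M A k (M * k)) (Gw p W M A k (M * k) q)
        (fun ω => GX p (W.b * k) ω % (p : ℤ) ^ (W.b * (M * k))) (Gγ p (W.b * k))
      + CE (Gs p W M A k (M * k)) (Gw p W M A k (M * k) q)
        (fun ω => GY p (W.b * k) ω % (p : ℤ) ^ (W.b * (M * k))) (Gγ p (W.b * k))
      - 2 * CE (Gs p W M A k (M * k)) (Gw p W M A k (M * k) q)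
        (fun ω => (GX p (W.b * k) ω % (p : ℤ) ^ (W.b * (M * k)),
          GY p (W.b * k) ω % (p : ℤ) ^ (W.b * (M * k)))) (Gγ p (W.b * k))
      ≤ 4 * GE p W M A k (M * k) q

/-- LR (NQ/LawR `law_R`, UB/LawR `law_R`) -/
def S_LR : Prop := ∀ (p : ℕ), (p = 3 ∨ p = 5) → ∀ (W : Alph p) (M A k m l q : ℕ), 2 ≤ q → 1 ≤ A →
  1 ≤ l → l ≤ m → 0 < ZG p W M A k m q → ∀ r : ℕ, r < W.b * l →
    Real.log (Zb p W A m q) - 2 * GE p W M A k m q - q * ((2 * l + m / l) * (W.b * Real.log p))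
      ≤ CE (Gs p W M A k m) (Gw p W M A k m q)
          (fun ω => GY p (W.b * k) ω % (p : ℤ) ^ (W.b * m)) (Gγ p (W.b * k))
        + q * ∑ i ∈ (range (W.b * m)).filter (fun i => i % (W.b * l) = r ∧ i + W.b * l ≤ W.b * m),
            ∑ ω ∈ Gs p W M A k m, Gw p W M A k m q ω *
              Real.log (GR p W M A k m l i (Gγ p (W.b * k) ω)
                (GY p (W.b * k) ω % (p : ℤ) ^ (i + W.b * l)))

/-- GR: the ratios (UB/LawR `GR_nonneg`, `GR_pos`, `GR_sum`, `GR_sum_pow`) -/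
def S_GR : Prop := ∀ (p : ℕ), (p = 3 ∨ p = 5) → ∀ (W : Alph p) (M A k m l q : ℕ), 2 ≤ q → 1 ≤ A →
  0 < ZG p W M A k m q →
    (∀ (i : ℕ) (g : ℕ × ℕ) (y : ℤ), 0 ≤ GR p W M A k m l i g y) ∧
    (∀ i : ℕ, i + W.b * l ≤ W.b * m → ∀ ω ∈ Gs p W M A k m, 0 < Gw p W M A k m q ω →
      0 < GR p W M A k m l i (Gγ p (W.b * k) ω) (GY p (W.b * k) ω % (p : ℤ) ^ (i + W.b * l))) ∧
    (∀ i : ℕ, i + W.b * l ≤ W.b * m → ∀ (g : ℕ × ℕ) (y : ℤ),
      ∑ v ∈ range (p ^ (W.b * l)), GR p W M A k m l i g (y + (p : ℤ) ^ i * v)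
        ≤ (p : ℝ) ^ (W.b * l)) ∧
    (∀ i : ℕ, i + W.b * l ≤ W.b * m → ∀ (g : ℕ × ℕ) (y : ℤ),
      ∑ v ∈ range (p ^ (W.b * l)), GR p W M A k m l i g (y + (p : ℤ) ^ i * v) ^ q
        ≤ Zb p W A l q)

/-- UP: the sup law -/
def S_UP : Prop := ∀ (p : ℕ), (p = 3 ∨ p = 5) → ∀ (W : Alph p) (ε : ℝ), 0 < ε →
  ∃ C : ℝ, 0 < C ∧ ∀ (A n : ℕ) (x : ℤ), DB p W A n x ≤ C * Real.exp (ε * n)

/-- UPH: the sup law from the rest (NQ/Upper and UB/Upper) -/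
def S_UPH : Prop := S_TR → S_GW → S_LX → S_LS → S_LR → S_GR → S_UP

end Pool.Agent.N685.WB
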