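import Pool.Agent.H377R2.NK.Ent
import Pool.Agent.N685.WB.Stm

/-! The Gibbs law of a block alphabet with unbounded letters: Gibbs inequalities, `law_X`, `law_sum`
(helper507; port of `Pool/Agent/Y966/UB/Law.lean` and `Pool/Agent/Y966/NQ/Law2.lean`). -/

set_option autoImplicit false
set_option linter.unusedVariables false

namespace Pool.Agent.N685.WB

open Finset Pool.Agent.H320R2.PD Pool.Agent.H377R2.NK

namespace Law

variable {p q A k m M : ℕ} {W : Alph p}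

theorem mem_Gs {ω : ℕ × List ℕ} :
    ω ∈ Gs p W M A k m ↔ ω.1 < p ^ (W.b * (k + m)) ∧ ω.2 ∈ VS p W M A k (ω.1 : ℤ) := by
  unfold Gs
  rw [mem_filter, mem_product, mem_range]
  constructor
  · rintro ⟨⟨h1, _⟩, h2⟩
    exact ⟨h1, h2⟩
  · rintro ⟨h1, h2⟩
    refine ⟨⟨h1, ?_⟩, h2⟩
    have := (mem_VS.1 h2).1
    unfold VW at this
    exact (mem_filter.1 this).1

theorem sum_Gs (F : ℕ × List ℕ → ℝ) :
    ∑ ω ∈ Gs p W M A k m, F ω
      = ∑ x ∈ range (p ^ (W.b * (k + m))), ∑ u ∈ VS p W M A k (x : ℤ), F (x, u) :=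
  Finset.sum_finset_product _ _ (fun x : ℕ => VS p W M A k (x : ℤ))
    (fun ω => by rw [mem_Gs, mem_range])

theorem odd' (hp : p = 3 ∨ p = 5) : Odd p := by
  rcases hp with h | h <;> (subst h; decide)

theorem one_le' (hp : p = 3 ∨ p = 5) : 1 ≤ p := by omega

/-- the truncated martingale after the first `k` blocks -/
theorem GG_zero (A k : ℕ) (x : ℤ) : GG p W M A k 0 x = ∑ u ∈ VS p W M A k x, zw p W u := by
  unfold GG
  refine Finset.sum_congr rfl fun u _ => ?_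
  rw [DB_zero, mul_one]

theorem GG_zero_le (A k : ℕ) (x : ℤ) : GG p W M A k 0 x ≤ DB p W A k x := by
  rw [GG_zero]
  unfold DB
  refine Finset.sum_le_sum_of_subset_of_nonneg ?_ (fun u _ _ => zw_nonneg _)
  intro u hu
  exact (mem_VS.1 hu).1

theorem sum_words (hp : p = 3 ∨ p = 5) (x : ℕ) (hq : 1 ≤ q) :
    ∑ u ∈ VS p W M A k (x : ℤ), Gw p W M A k m q (x, u)
      = GG p W M A k m (x : ℤ) ^ q / ZG p W M A k m q := by
  unfold Gw
  simp only []
  rw [← Finset.sum_div, ← Finset.mul_sum]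
  congr 1
  have h : GG p W M A k m (x : ℤ) =
      ∑ w ∈ VS p W M A k (x : ℤ), zw p W w * DB p W A m (en p w (x : ℤ)) := rfl
  rw [← h, ← pow_succ]
  congr 1; omega

theorem Gw_nonneg' (hp : p = 3 ∨ p = 5) (hG : 0 < ZG p W M A k m q) (ω : ℕ × List ℕ) :
    0 ≤ Gw p W M A k m q ω := by
  unfold Gw
  have := zw_pos (W := W) ω.2
  have := GG_nonneg (W := W) (M := M) A k m (ω.1 : ℤ)
  have := DB_nonneg (W := W) A m (en p ω.2 (ω.1 : ℤ))
  positivity

theorem Gw_total' (hp : p = 3 ∨ p = 5) (hq : 1 ≤ q) (hG : 0 < ZG p W M A k m q) :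
    ∑ ω ∈ Gs p W M A k m, Gw p W M A k m q ω = 1 := by
  rw [sum_Gs]
  simp_rw [sum_words hp _ hq]
  rw [← Finset.sum_div]
  exact div_self hG.ne'

/-- the factors are positive where the law charges -/
theorem pos_of_ne (hp : p = 3 ∨ p = 5) {ω : ℕ × List ℕ} (hω : ω ∈ Gs p W M A k m)
    (h : Gw p W M A k m q ω ≠ 0) :
    0 < DB p W A m (en p ω.2 (ω.1 : ℤ)) ∧ 0 < GG p W M A k m (ω.1 : ℤ) := by
  have hp1 := one_le' hp
  have h0 := zw_pos (W := W) ω.2
  have h1 : DB p W A m (en p ω.2 (ω.1 : ℤ)) ≠ 0 := by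
    intro h2
    apply h
    unfold Gw
    rw [h2]; simp
  have h2 : 0 < DB p W A m (en p ω.2 (ω.1 : ℤ)) :=
    lt_of_le_of_ne (DB_nonneg A m (en p ω.2 (ω.1 : ℤ))) (Ne.symm h1)
  refine ⟨h2, ?_⟩
  have h3 : zw p W ω.2 * DB p W A m (en p ω.2 (ω.1 : ℤ)) ≤ GG p W M A k m (ω.1 : ℤ) := by
    unfold GG
    refine Finset.single_le_sum (f := fun w => zw p W w * DB p W A m (en p w (ω.1 : ℤ)))
      (fun w _ => ?_) (mem_Gs.1 hω).2
    exact mul_nonneg (zw_nonneg _) (DB_nonneg _ _ _)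
  exact lt_of_lt_of_le (by positivity) h3

theorem mm_ite {Ω α : Type*} [DecidableEq α] (s : Finset Ω) (w : Ω → ℝ) (f : Ω → α) (ω : Ω) :
    mm s w f ω = ∑ ω' ∈ s, if f ω' = f ω then w ω' else 0 := by
  unfold mm
  rw [Finset.sum_filter]
  refine Finset.sum_congr rfl fun x _ => ?_
  by_cases h : f x = f ω <;> simp [h]

/-- mass of the atoms of the root -/
theorem mm_x (hp : p = 3 ∨ p = 5) (hq : 1 ≤ q) {ω : ℕ × List ℕ} (hω : ω ∈ Gs p W M A k m) :
    mm (Gs p W M A k m) (Gw p W M A k m q) (fun ω => ω.1) ω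
      = GG p W M A k m (ω.1 : ℤ) ^ q / ZG p W M A k m q := by
  rw [mm_ite, sum_Gs]
  have h1 : ∀ x ∈ range (p ^ (W.b * (k + m))), (∑ u ∈ VS p W M A k (x : ℤ),
      if (x, u).1 = ω.1 then Gw p W M A k m q (x, u) else 0)
      = if x = ω.1 then GG p W M A k m (x : ℤ) ^ q / ZG p W M A k m q else 0 := by
    intro x _
    by_cases h : x = ω.1
    · simp only [h, if_true]
      rw [sum_words hp _ hq]
    · simp [h]
  rw [Finset.sum_congr rfl h1, Finset.sum_ite_eq' (range (p ^ (W.b * (k + m)))) ω.1,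
    if_pos (mem_range.2 (mem_Gs.1 hω).1)]

theorem mm_full {ω : ℕ × List ℕ} (hω : ω ∈ Gs p W M A k m) (w : ℕ × List ℕ → ℝ) :
    mm (Gs p W M A k m) w (fun ω => (ω.2, ω.1)) ω = w ω := by
  rw [mm_ite]
  have : ∀ ω' ∈ Gs p W M A k m, (if (ω'.2, ω'.1) = (ω.2, ω.1) then w ω' else 0)
      = if ω' = ω then w ω' else 0 := by
    intro ω' _
    have : (ω'.2, ω'.1) = (ω.2, ω.1) ↔ ω' = ω := by
      rw [Prod.mk.injEq, Prod.ext_iff]
      exact and_comm
    simp only [this]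
  rw [Finset.sum_congr rfl this, Finset.sum_ite_eq', if_pos hω]

theorem mm_const (ω : ℕ × List ℕ) (w : ℕ × List ℕ → ℝ) :
    mm (Gs p W M A k m) w (fun _ => ()) ω = ∑ ω ∈ Gs p W M A k m, w ω := by
  rw [mm_ite]
  simp

/-- entropy of the root -/
theorem ent_x (hp : p = 3 ∨ p = 5) (hq : 2 ≤ q) (hG : 0 < ZG p W M A k m q) :
    CE (Gs p W M A k m) (Gw p W M A k m q) (fun ω => ω.1) (fun _ => ())
      = Real.log (ZG p W M A k m q)
        - q * ∑ ω ∈ Gs p W M A k m, Gw p W M A k m q ω * Real.log (GG p W M A k m (ω.1 : ℤ)) := by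
  rw [CE_eval (a := fun _ => 1) (b := fun ω => GG p W M A k m (ω.1 : ℤ) ^ q / ZG p W M A k m q)]
  · have h1 : ∀ ω ∈ Gs p W M A k m, Gw p W M A k m q ω * (Real.log 1
        - Real.log (GG p W M A k m (ω.1 : ℤ) ^ q / ZG p W M A k m q))
        = Gw p W M A k m q ω * Real.log (ZG p W M A k m q)
          - q * (Gw p W M A k m q ω * Real.log (GG p W M A k m (ω.1 : ℤ))) := by
      intro ω hω
      by_cases h : Gw p W M A k m q ω = 0
      · rw [h]; simp
      · obtain ⟨_, h2⟩ := pos_of_ne hp hω h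
        rw [Real.log_div (by positivity) hG.ne', Real.log_pow, Real.log_one]
        ring
    rw [Finset.sum_congr rfl h1, Finset.sum_sub_distrib, ← Finset.sum_mul,
      Gw_total' hp (by omega) hG, one_mul, ← Finset.mul_sum]
  · intro ω hω _
    rw [mm_const, Gw_total' hp (by omega) hG]
  · intro ω hω _
    rw [← mm_x hp (by omega) hω]
    refine mm_congr (f' := fun ω : ℕ × List ℕ => ω.1) ?_ ω hω
    intro a _ b _
    simp

/-- entropy of the word given the root -/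
theorem ent_ux (hp : p = 3 ∨ p = 5) (hq : 2 ≤ q) (hG : 0 < ZG p W M A k m q) :
    CE (Gs p W M A k m) (Gw p W M A k m q) (fun ω => ω.2) (fun ω => ω.1)
      = (∑ ω ∈ Gs p W M A k m, Gw p W M A k m q ω * Real.log (GG p W M A k m (ω.1 : ℤ)))
        - (∑ ω ∈ Gs p W M A k m, Gw p W M A k m q ω * Real.log (zw p W ω.2))
        - ∑ ω ∈ Gs p W M A k m, Gw p W M A k m q ω * Real.log (DB p W A m (en p ω.2 (ω.1 : ℤ))) := by
  rw [CE_eval (a := fun ω => GG p W M A k m (ω.1 : ℤ) ^ q / ZG p W M A k m q)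
    (b := Gw p W M A k m q)]
  · rw [← Finset.sum_sub_distrib, ← Finset.sum_sub_distrib]
    refine Finset.sum_congr rfl fun ω hω => ?_
    by_cases h : Gw p W M A k m q ω = 0
    · rw [h]; simp
    · obtain ⟨h1, h2⟩ := pos_of_ne hp hω h
      have h0 := zw_pos (W := W) ω.2
      have h3 : Real.log (Gw p W M A k m q ω) = ((q : ℝ) - 1) * Real.log (GG p W M A k m (ω.1 : ℤ))
          + (Real.log (zw p W ω.2) + Real.log (DB p W A m (en p ω.2 (ω.1 : ℤ))))
          - Real.log (ZG p W M A k m q) := by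
        unfold Gw
        rw [Real.log_div (by positivity) hG.ne', Real.log_mul (by positivity) (by positivity),
          Real.log_mul (by positivity) (by positivity), Real.log_pow]
        rw [Nat.cast_sub (by omega)]
        push_cast
        ring
      rw [h3, Real.log_div (by positivity) hG.ne', Real.log_pow]
      ring
  · intro ω hω _
    exact mm_x hp (by omega) hω
  · intro ω hω _
    exact mm_full hω _

theorem modcast (p k : ℕ) (x : ℕ) :
    (x : ℤ) = ((x % p ^ k : ℕ) : ℤ) + (p : ℤ) ^ k * ((x / p ^ k : ℕ) : ℤ) := by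
  have := Nat.mod_add_div x (p ^ k)
  have h : ((x % p ^ k + p ^ k * (x / p ^ k) : ℕ) : ℤ) = (x : ℤ) := by rw [this]
  push_cast at h ⊢
  exact h.symm

theorem VS_mod (x : ℕ) :
    VS p W M A k (x : ℤ) = VS p W M A k ((x % p ^ (W.b * k) : ℕ) : ℤ) := by
  conv_lhs => rw [modcast p (W.b * k) x]
  exact VS_shift A k _ _

theorem GG_mod (x : ℕ) :
    GG p W M A k 0 (x : ℤ) = GG p W M A k 0 ((x % p ^ (W.b * k) : ℕ) : ℤ) := by
  rw [GG_zero, GG_zero, VS_mod]

theorem en_mod (hp : 1 ≤ p) {ω : ℕ × List ℕ} (hω : ω ∈ Gs p W M A k m) :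
    en p ω.2 (ω.1 : ℤ) = GX p (W.b * k) ω + GY p (W.b * k) ω := by
  have hl := len_VS (mem_Gs.1 hω).2
  unfold GX GY
  conv_lhs => rw [modcast p (W.b * k) ω.1, ← hl]
  rw [en_shift hp, hl]

theorem GG_pos' (hp : p = 3 ∨ p = 5) {ω : ℕ × List ℕ} (hω : ω ∈ Gs p W M A k m) :
    0 < GG p W M A k 0 ((ω.1 % p ^ (W.b * k) : ℕ) : ℤ) := by
  rw [GG_zero]
  refine Finset.sum_pos (fun u _ => zw_pos _) ⟨ω.2, ?_⟩
  rw [← VS_mod]
  exact (mem_Gs.1 hω).2

/-- Gibbs inequality for the word given the root mod `p^{bk}` -/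
theorem ent_ua (hp : p = 3 ∨ p = 5) (hG : 0 < ZG p W M A k m q) :
    CE (Gs p W M A k m) (Gw p W M A k m q) (fun ω => ω.2) (fun ω => ω.1 % p ^ (W.b * k))
      + (∑ ω ∈ Gs p W M A k m, Gw p W M A k m q ω * Real.log (zw p W ω.2))
      ≤ ∑ ω ∈ Gs p W M A k m, Gw p W M A k m q ω *
        Real.log (GG p W M A k 0 ((ω.1 % p ^ (W.b * k) : ℕ) : ℤ)) := by
  exact CE_gibbs (fun ω _ => Gw_nonneg' hp hG ω) (fun ω => ω.2) (fun ω => ω.1 % p ^ (W.b * k))
    (fun a => VS p W M A k (a : ℤ)) (fun u _ => zw p W u) (fun a => GG p W M A k 0 (a : ℤ))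
    (fun ω hω _ => by rw [← VS_mod]; exact (mem_Gs.1 hω).2)
    (fun ω hω _ a _ => zw_nonneg _) (fun ω hω _ => zw_pos _)
    (fun ω hω _ => (GG_zero _ _ _).ge)

/-- Gibbs inequality for the root mod `p^{bk}` -/
theorem ent_a (hp : p = 3 ∨ p = 5) (hq : 1 ≤ q) (hG : 0 < ZG p W M A k m q) :
    CE (Gs p W M A k m) (Gw p W M A k m q) (fun ω => ω.1 % p ^ (W.b * k)) (fun _ => ())
      + q * (∑ ω ∈ Gs p W M A k m, Gw p W M A k m q ω *
        Real.log (GG p W M A k 0 ((ω.1 % p ^ (W.b * k) : ℕ) : ℤ)))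
      ≤ Real.log (Zb p W A k q) := by
  have h := CE_gibbs (w := Gw p W M A k m q) (fun ω _ => Gw_nonneg' hp hG ω) (fun ω => ω.1 % p ^ (W.b * k)) (fun _ => ())
    (fun _ => range (p ^ (W.b * k))) (fun a _ => GG p W M A k 0 (a : ℤ) ^ q) (fun _ => Zb p W A k q)
    (s := Gs p W M A k m)
    (fun ω hω _ => mem_range.2 (Nat.mod_lt _ (pow_pos (one_le' hp) _)))
    (fun ω hω _ a _ => pow_nonneg (GG_nonneg _ _ _ _) _)
    (fun ω hω _ => pow_pos (GG_pos' hp hω) _)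
    (fun ω hω _ => Finset.sum_le_sum fun a _ =>
      pow_le_pow_left₀ (GG_nonneg _ _ _ _) (GG_zero_le _ _ _) _)
  rw [← Finset.sum_mul, Gw_total' hp hq hG, one_mul] at h
  refine le_trans (le_of_eq ?_) h
  rw [Finset.mul_sum]
  congr 1
  refine Finset.sum_congr rfl fun ω _ => ?_
  rw [Real.log_pow]; ring

theorem coprime_two (hp : p = 3 ∨ p = 5) (s : ℕ) : IsCoprime ((2 : ℤ) ^ s) (p : ℤ) := by
  apply IsCoprime.pow_left
  rcases hp with h | h
  · subst h; exact ⟨-1, 1, by norm_num⟩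
  · subst h; exact ⟨-2, 1, by norm_num⟩

/-- Gibbs inequality for the word -/
theorem ent_u (hp : p = 3 ∨ p = 5) (hq : 1 ≤ q) (hG : 0 < ZG p W M A k m q) (hA : 1 ≤ A) :
    CE (Gs p W M A k m) (Gw p W M A k m q) (fun ω => ω.2) (fun _ => ())
      + q * (∑ ω ∈ Gs p W M A k m, Gw p W M A k m q ω * Real.log (zw p W ω.2)) ≤
        k * (W.b * Real.log p) := by
  have h := CE_gibbs (s := Gs p W M A k m) (w := Gw p W M A k m q) (fun ω _ => Gw_nonneg' hp hG ω)
    (fun ω => ω.2) (fun _ => ())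
    (fun _ => FW A (W.b * k)) (fun u _ => zw p W u ^ q)
    (fun _ => ∑ w ∈ FW A (W.b * k), zw p W w ^ q)
    (fun ω hω _ => by
      have h1 := (mem_VS.1 (mem_Gs.1 hω).2).1
      unfold VW at h1
      exact (mem_filter.1 h1).1)
    (fun ω hω _ a _ => pow_nonneg (zw_nonneg _) _)
    (fun ω hω _ => pow_pos (zw_pos _) _)
    (fun ω hω _ => le_rfl)
  rw [← Finset.sum_mul, Gw_total' hp hq hG, one_mul] at h
  have hs0 : 0 < ∑ w ∈ FW A (W.b * k), zw p W w ^ q := by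
    refine Finset.sum_pos (fun e _ => pow_pos (zw_pos _) _) ⟨List.replicate (W.b * k) 1, ?_⟩
    rw [mem_FW]
    exact ⟨List.length_replicate, fun e he => by rw [List.eq_of_mem_replicate he]; omega⟩
  have h2 : Real.log (∑ w ∈ FW A (W.b * k), zw p W w ^ q) ≤ k * (W.b * Real.log p) := by
    refine (Real.log_le_log hs0 (sum_zw_pow_le hq A k)).trans (le_of_eq ?_)
    rw [Real.log_pow]
    push_cast
    ring
  refine le_trans (le_of_eq ?_) (h.trans h2)
  rw [Finset.mul_sum]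
  congr 1
  refine Finset.sum_congr rfl fun ω _ => ?_
  rw [Real.log_pow]; ring

/-- the root mod `p^{bk}` is a function of the word -/
theorem root_of_word (hp : p = 3 ∨ p = 5) {ω ω' : ℕ × List ℕ} (hω : ω ∈ Gs p W M A k m)
    (hω' : ω' ∈ Gs p W M A k m) (h : ω.2 = ω'.2) :
    ω.1 % p ^ (W.b * k) = ω'.1 % p ^ (W.b * k) := by
  have hp1 := one_le' hp
  have hu := (mem_Gs.1 hω).2
  have hu' := (mem_Gs.1 hω').2
  rw [VS_mod] at hu hu'
  obtain ⟨hl, hA, hd⟩ := mem_VW.1 (mem_VS.1 hu).1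
  obtain ⟨hl', hA', hd'⟩ := mem_VW.1 (mem_VS.1 hu').1
  rw [← h] at hd'
  have h1 : (p : ℤ) ^ (W.b * k) ∣ 2 ^ ω.2.sum *
      (((ω'.1 % p ^ (W.b * k) : ℕ) : ℤ) - ((ω.1 % p ^ (W.b * k) : ℕ) : ℤ)) := by
    have := dvd_sub hd' hd
    have e : (2 ^ ω.2.sum * ((ω'.1 % p ^ (W.b * k) : ℕ) : ℤ) - (Wp p ω.2 : ℤ)) -
        (2 ^ ω.2.sum * ((ω.1 % p ^ (W.b * k) : ℕ) : ℤ) - (Wp p ω.2 : ℤ)) =
        2 ^ ω.2.sum * (((ω'.1 % p ^ (W.b * k) : ℕ) : ℤ) - ((ω.1 % p ^ (W.b * k) : ℕ) : ℤ)) := by ring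
    rwa [e] at this
  have h2 := (IsCoprime.pow_left (coprime_two hp ω.2.sum).symm).dvd_of_dvd_mul_left h1
  have h3 : ω.1 % p ^ (W.b * k) ≡ ω'.1 % p ^ (W.b * k) [MOD p ^ (W.b * k)] := by
    rw [Nat.modEq_iff_dvd]
    push_cast at h2 ⊢
    exact h2
  have hpk : 0 < p ^ (W.b * k) := pow_pos hp1 _
  exact Nat.ModEq.eq_of_lt_of_lt h3 (Nat.mod_lt _ hpk) (Nat.mod_lt _ hpk)

theorem fst_lt {ω : ℕ × List ℕ} (hω : ω ∈ Gs p W M A k m) :
    ω.1 < p ^ (W.b * k) * p ^ (W.b * m) := by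
  have h := (mem_Gs.1 hω).1
  rwa [mul_add, pow_add] at h

/-- Gibbs inequality for the root given the word and the root mod `p^{bk}` -/
theorem ent_xau (hp : p = 3 ∨ p = 5) (hq : 1 ≤ q) (hG : 0 < ZG p W M A k m q) :
    CE (Gs p W M A k m) (Gw p W M A k m q) (fun ω => ω.1) (fun ω => (ω.2, ω.1 % p ^ (W.b * k)))
      + q * (∑ ω ∈ Gs p W M A k m, Gw p W M A k m q ω * Real.log (DB p W A m (en p ω.2 (ω.1 : ℤ))))
      ≤ Real.log (Zb p W A m q) := by
  classical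
  have hp1 := one_le' hp
  have hpk : 0 < p ^ (W.b * k) := pow_pos hp1 _
  have h := CE_gibbs (s := Gs p W M A k m) (w := Gw p W M A k m q) (fun ω _ => Gw_nonneg' hp hG ω)
    (fun ω => ω.1) (fun ω => (ω.2, ω.1 % p ^ (W.b * k)))
    (fun c => (range (p ^ (W.b * m))).image (fun x' => c.2 + p ^ (W.b * k) * x'))
    (fun x c => DB p W A m (en p c.1 (x : ℤ)) ^ q) (fun _ => Zb p W A m q) ?_ ?_ ?_ ?_
  · rw [← Finset.sum_mul, Gw_total' hp hq hG, one_mul] at h
    refine le_trans (le_of_eq ?_) h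
    rw [Finset.mul_sum]
    congr 1
    refine Finset.sum_congr rfl fun ω _ => ?_
    simp only []
    rw [Real.log_pow]; ring
  · intro ω hω _
    simp only [mem_image, mem_range]
    exact ⟨ω.1 / p ^ (W.b * k), Nat.div_lt_of_lt_mul (fst_lt hω), Nat.mod_add_div _ _⟩
  · intro ω hω _ a _
    exact pow_nonneg (DB_nonneg _ _ _) _
  · intro ω hω h0
    exact pow_pos (pos_of_ne hp hω h0.ne').1 _
  · intro ω hω _
    simp only []
    rw [Finset.sum_image (by
      intro a _ b _ hab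
      simp only [] at hab
      have : p ^ (W.b * k) * a = p ^ (W.b * k) * b := by omega
      exact Nat.eq_of_mul_eq_mul_left hpk this)]
    refine le_of_eq ?_
    unfold Zb
    have hl := len_VS (mem_Gs.1 hω).2
    have e : ∀ x' : ℕ, DB p W A m (en p ω.2
          ((ω.1 % p ^ (W.b * k) + p ^ (W.b * k) * x' : ℕ) : ℤ)) ^ q
        = DB p W A m (en p ω.2 ((ω.1 % p ^ (W.b * k) : ℕ) : ℤ) + 2 ^ ω.2.sum * (x' : ℤ)) ^ q := by
      intro x'
      have := en_shift hp1 (w := ω.2) ((ω.1 % p ^ (W.b * k) : ℕ) : ℤ) (x' : ℤ)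
      rw [hl] at this
      rw [← this]
      push_cast
      rfl
    simp_rw [e]
    exact sum_affine hp1 (W.b * m) (2 ^ ω.2.sum) _ (coprime_two hp _)
      (h := fun y => DB p W A m y ^ q) (fun x y => by simp only [DB_shift])

/-- Gibbs inequality for the endpoint mod `p^{bm}` -/
theorem ent_V (hp : p = 3 ∨ p = 5) (hq : 1 ≤ q) (hG : 0 < ZG p W M A k m q) :
    CE (Gs p W M A k m) (Gw p W M A k m q)
        (fun ω => (GX p (W.b * k) ω + GY p (W.b * k) ω) % (p : ℤ) ^ (W.b * m)) (fun _ => ())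
      + q * (∑ ω ∈ Gs p W M A k m, Gw p W M A k m q ω * Real.log (DB p W A m (en p ω.2 (ω.1 : ℤ))))
      ≤ Real.log (Zb p W A m q) := by
  classical
  have hp1 := one_le' hp
  have hpm : (0 : ℤ) < (p : ℤ) ^ (W.b * m) := by positivity
  have hV : ∀ ω ∈ Gs p W M A k m,
      DB p W A m ((GX p (W.b * k) ω + GY p (W.b * k) ω) % (p : ℤ) ^ (W.b * m))
      = DB p W A m (en p ω.2 (ω.1 : ℤ)) := by
    intro ω hω
    rw [en_mod hp1 hω]
    have := Int.emod_add_mul_ediv (GX p (W.b * k) ω + GY p (W.b * k) ω) ((p : ℤ) ^ (W.b * m))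
    conv_rhs => rw [← this]
    rw [DB_shift]
  have h := CE_gibbs (s := Gs p W M A k m) (w := Gw p W M A k m q) (fun ω _ => Gw_nonneg' hp hG ω)
    (fun ω => (GX p (W.b * k) ω + GY p (W.b * k) ω) % (p : ℤ) ^ (W.b * m)) (fun _ => ())
    (fun _ => (range (p ^ (W.b * m))).image (fun x : ℕ => (x : ℤ)))
    (fun y _ => DB p W A m y ^ q) (fun _ => Zb p W A m q) ?_ ?_ ?_ ?_
  · rw [← Finset.sum_mul, Gw_total' hp hq hG, one_mul] at h
    refine le_trans (le_of_eq ?_) h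
    rw [Finset.mul_sum]
    congr 1
    refine Finset.sum_congr rfl fun ω hω => ?_
    rw [Real.log_pow, hV ω hω]; ring
  · intro ω hω _
    simp only [mem_image, mem_range]
    refine ⟨((GX p (W.b * k) ω + GY p (W.b * k) ω) % (p : ℤ) ^ (W.b * m)).toNat, ?_, ?_⟩
    · have h1 := Int.emod_lt_of_pos (GX p (W.b * k) ω + GY p (W.b * k) ω) hpm
      have h2 := Int.emod_nonneg (GX p (W.b * k) ω + GY p (W.b * k) ω) hpm.ne'
      zify
      rw [Int.toNat_of_nonneg h2]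
      exact_mod_cast h1
    · exact Int.toNat_of_nonneg (Int.emod_nonneg _ hpm.ne')
  · intro ω hω _ a _
    exact pow_nonneg (DB_nonneg _ _ _) _
  · intro ω hω h0
    rw [hV ω hω]
    exact pow_pos (pos_of_ne hp hω h0.ne').1 _
  · intro ω hω _
    rw [Finset.sum_image (by intro a _ b _ hab; exact Nat.cast_injective hab)]
    exact le_rfl

/-- injectivity of the residue of the endpoint, given the root mod `p^{bk}` and the size -/
theorem inj_X (hp : p = 3 ∨ p = 5) (hm : M * k ≤ m) {ω ω' : ℕ × List ℕ} (hω : ω ∈ Gs p W M A k m)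
    (hω' : ω' ∈ Gs p W M A k m) (ha : ω.1 % p ^ (W.b * k) = ω'.1 % p ^ (W.b * k))
    (hs : ω.2.sum = ω'.2.sum) :
    GX p (W.b * k) ω % (p : ℤ) ^ (W.b * m) = GX p (W.b * k) ω' % (p : ℤ) ^ (W.b * m)
      ↔ ω.2 = ω'.2 := by
  have hp1 := one_le' hp
  constructor
  · intro h
    have hu := (mem_Gs.1 hω).2
    have hu' := (mem_Gs.1 hω').2
    rw [VS_mod] at hu hu'
    obtain ⟨hl, hA₀, hd⟩ := mem_VW.1 (mem_VS.1 hu).1
    obtain ⟨hl', hA₀', hd'⟩ := mem_VW.1 (mem_VS.1 hu').1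
    have hA : ∀ e ∈ ω.2, 1 ≤ e := fun e he => (hA₀ e he).1
    have hA' : ∀ e ∈ ω'.2, 1 ≤ e := fun e he => (hA₀' e he).1
    have hsz := (mem_VS.1 hu).2
    rw [← ha] at hd'
    unfold GX en at h
    rw [← ha, hl, hl', ← hs] at h
    rw [← hs] at hd'
    set a : ℤ := ((ω.1 % p ^ (W.b * k) : ℕ) : ℤ) with ha_def
    have e1 := Int.mul_ediv_cancel' hd
    have e2 := Int.mul_ediv_cancel' hd'
    have h1 : (p : ℤ) ^ (W.b * m) ∣ (2 ^ ω.2.sum * a - (Wp p ω'.2 : ℤ)) / (p : ℤ) ^ (W.b * k)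
        - (2 ^ ω.2.sum * a - (Wp p ω.2 : ℤ)) / (p : ℤ) ^ (W.b * k) := Int.ModEq.dvd h
    have h2 : (p : ℤ) ^ (W.b * k + W.b * m) ∣ (Wp p ω.2 : ℤ) - (Wp p ω'.2 : ℤ) := by
      have h3 := mul_dvd_mul_left ((p : ℤ) ^ (W.b * k)) h1
      rw [mul_sub, e1, e2, ← pow_add] at h3
      have e3 : (2 ^ ω.2.sum * a - (Wp p ω'.2 : ℤ)) - (2 ^ ω.2.sum * a - (Wp p ω.2 : ℤ))
        = (Wp p ω.2 : ℤ) - (Wp p ω'.2 : ℤ) := by ring
      rwa [e3] at h3
    have h3p : 3 ≤ p := by omega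
    have hbm : M * (W.b * k) ≤ W.b * m := by
      calc M * (W.b * k) = W.b * (M * k) := by ring
        _ ≤ W.b * m := Nat.mul_le_mul_left _ hm
    have hpow : 2 ^ ω.2.sum * p ^ (W.b * k) ≤ p ^ (W.b * k + W.b * m) := by
      rw [pow_add, mul_comm]
      refine Nat.mul_le_mul_left _ ?_
      calc 2 ^ ω.2.sum ≤ 2 ^ (W.b * m) := Nat.pow_le_pow_right (by norm_num) (hsz.trans hbm)
        _ ≤ p ^ (W.b * m) := Nat.pow_le_pow_left (by omega) _
    have b1 : Wp p ω.2 < p ^ (W.b * k + W.b * m) := by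
      refine lt_of_lt_of_le (Wp_lt h3p hA) ?_
      rw [hl]; exact hpow
    have b2 : Wp p ω'.2 < p ^ (W.b * k + W.b * m) := by
      refine lt_of_lt_of_le (Wp_lt h3p hA') ?_
      rw [hl', ← hs]; exact hpow
    have h4 : Wp p ω.2 ≡ Wp p ω'.2 [MOD p ^ (W.b * k + W.b * m)] := by
      rw [Nat.ModEq.comm, Nat.modEq_iff_dvd]
      push_cast
      exact h2
    have h5 : Wp p ω.2 = Wp p ω'.2 := Nat.ModEq.eq_of_lt_of_lt h4 b1 b2
    exact Wp_inj (odd' hp) hA hA' (by rw [hl, hl']) hs h5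
  · intro h
    unfold GX
    rw [ha, h]

/-- injectivity of the high digits of the root -/
theorem inj_Y (hp : p = 3 ∨ p = 5) {ω ω' : ℕ × List ℕ} (hω : ω ∈ Gs p W M A k m)
    (hω' : ω' ∈ Gs p W M A k m) (ha : ω.1 % p ^ (W.b * k) = ω'.1 % p ^ (W.b * k))
    (hs : ω.2.sum = ω'.2.sum) :
    GY p (W.b * k) ω % (p : ℤ) ^ (W.b * m) = GY p (W.b * k) ω' % (p : ℤ) ^ (W.b * m)
      ↔ ω.1 = ω'.1 := by
  have hp1 := one_le' hp
  constructor
  · intro h
    unfold GY at h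
    have h1 : (p : ℤ) ^ (W.b * m) ∣ 2 ^ ω'.2.sum * ((ω'.1 / p ^ (W.b * k) : ℕ) : ℤ)
        - 2 ^ ω.2.sum * ((ω.1 / p ^ (W.b * k) : ℕ) : ℤ) := Int.ModEq.dvd h
    rw [← hs, ← mul_sub] at h1
    have h2 : (p : ℤ) ^ (W.b * m) ∣
        ((ω'.1 / p ^ (W.b * k) : ℕ) : ℤ) - ((ω.1 / p ^ (W.b * k) : ℕ) : ℤ) :=
      (IsCoprime.pow_left (coprime_two hp ω.2.sum).symm).dvd_of_dvd_mul_left h1
    have h3 : ω.1 / p ^ (W.b * k) ≡ ω'.1 / p ^ (W.b * k) [MOD p ^ (W.b * m)] := by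
      rw [Nat.modEq_iff_dvd]
      push_cast at h2 ⊢
      exact h2
    have h4 := Nat.ModEq.eq_of_lt_of_lt h3 (Nat.div_lt_of_lt_mul (fst_lt hω))
      (Nat.div_lt_of_lt_mul (fst_lt hω'))
    rw [← Nat.mod_add_div ω.1 (p ^ (W.b * k)), ← Nat.mod_add_div ω'.1 (p ^ (W.b * k)), ha, h4]
  · intro h
    unfold GY
    rw [h, hs]

/-- all the numerical information about the Gibbs law -/
theorem numbers (hp : p = 3 ∨ p = 5) (hq : 2 ≤ q) (hA : 1 ≤ A) (hG : 0 < ZG p W M A k m q) :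
    ∃ J : ℝ, 0 ≤ J ∧ J ≤ GE p W M A k m q ∧
      CE (Gs p W M A k m) (Gw p W M A k m q) (fun ω => ω.2) (fun ω => ω.1 % p ^ (W.b * k))
        - CE (Gs p W M A k m) (Gw p W M A k m q) (fun ω => ω.2) (fun ω => ω.1) ≤ J ∧
      CE (Gs p W M A k m) (Gw p W M A k m q)
          (fun ω => (GX p (W.b * k) ω + GY p (W.b * k) ω) % (p : ℤ) ^ (W.b * m)) (fun _ => ())
        - CE (Gs p W M A k m) (Gw p W M A k m q) (fun ω => ω.1) (fun ω => (ω.2, ω.1 % p ^ (W.b * k)))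
        ≤ GE p W M A k m q ∧
      (Real.log (Zb p W A k q) - k * (W.b * Real.log p)) / (q - 1) - 3 * GE p W M A k m q
          ≤ CE (Gs p W M A k m) (Gw p W M A k m q) (fun ω => ω.2) (fun ω => ω.1) ∧
      Real.log (ZG p W M A k m q) - Real.log (Zb p W A k q) - GE p W M A k m q
          - q * (∑ ω ∈ Gs p W M A k m, Gw p W M A k m q ω * (Real.log (GG p W M A k m (ω.1 : ℤ))
            - Real.log (GG p W M A k 0 (ω.1 : ℤ))))
          ≤ CE (Gs p W M A k m) (Gw p W M A k m q) (fun ω => ω.1) (fun ω => (ω.2, ω.1 % p ^ (W.b * k))) := by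
  have hq1 : 1 ≤ q := by omega
  have hw : ∀ ω ∈ Gs p W M A k m, 0 ≤ Gw p W M A k m q ω := fun ω _ => Gw_nonneg' hp hG ω
  have htot := Gw_total' (W := W) (k := k) (m := m) hp hq1 hG
  have hDm : ∑ ω ∈ Gs p W M A k m, Gw p W M A k m q ω * (Real.log (GG p W M A k m (ω.1 : ℤ))
            - Real.log (GG p W M A k 0 (ω.1 : ℤ))) =
      (∑ ω ∈ Gs p W M A k m, Gw p W M A k m q ω * Real.log (GG p W M A k m (ω.1 : ℤ))) -
      ∑ ω ∈ Gs p W M A k m, Gw p W M A k m q ω *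
        Real.log (GG p W M A k 0 ((ω.1 % p ^ (W.b * k) : ℕ) : ℤ)) := by
    rw [← sum_sub_distrib]
    refine sum_congr rfl fun ω _ => ?_
    rw [← GG_mod]
    ring
  rw [hDm]
  set s := Gs p W M A k m with hs
  set w := Gw p W M A k m q with hwdef
  -- the relation between the entropies
  have R1 : CE s w (fun ω => ω.1) (fun _ => ()) + CE s w (fun ω => ω.2) (fun ω => ω.1)
      = CE s w (fun ω => ω.1 % p ^ (W.b * k)) (fun _ => ())
        + CE s w (fun ω => ω.2) (fun ω => ω.1 % p ^ (W.b * k))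
        + CE s w (fun ω => ω.1) (fun ω => (ω.2, ω.1 % p ^ (W.b * k))) := by
    have c1 := CE_chain (s := s) (w := w) (fun ω => ω.2) (fun ω => ω.1) (fun _ => ())
    have c2 : CE s w (fun ω => ω.2) (fun ω => (ω.1, ())) = CE s w (fun ω => ω.2) (fun ω => ω.1) :=
      CE_congr (fun a _ b _ => by simp) (fun a _ b _ _ => Iff.rfl)
    have c3 := CE_chain (s := s) (w := w) (fun ω => (ω.2, ω.1)) (fun ω => ω.1 % p ^ (W.b * k))
      (fun _ => ())
    have c4 : CE s w (fun ω => ((ω.2, ω.1), ω.1 % p ^ (W.b * k))) (fun _ => ())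
        = CE s w (fun ω => (ω.2, ω.1)) (fun _ => ()) := by
      refine CE_congr (fun a _ b _ => Iff.rfl) (fun a _ b _ _ => ?_)
      simp only [Prod.mk.injEq]
      constructor
      · rintro ⟨h, _⟩; exact h
      · rintro ⟨h1, h2⟩; exact ⟨⟨h1, h2⟩, by rw [h2]⟩
    have c5 : CE s w (fun ω => (ω.2, ω.1)) (fun ω => (ω.1 % p ^ (W.b * k), ()))
        = CE s w (fun ω => (ω.1, ω.2)) (fun ω => ω.1 % p ^ (W.b * k)) := by
      refine CE_congr (fun a _ b _ => by simp) (fun a _ b _ _ => ?_)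
      simp only [Prod.mk.injEq]
      exact and_comm
    have c6 := CE_chain (s := s) (w := w) (fun ω => ω.1) (fun ω => ω.2)
      (fun ω => ω.1 % p ^ (W.b * k))
    linarith
  have i1 := ent_x (W := W) (m := m) (k := k) hp hq hG
  have i2 := ent_ux (W := W) (m := m) (k := k) hp hq hG
  have i3 := ent_ua (W := W) (m := m) (k := k) hp hG
  have i4 := ent_a (W := W) (m := m) (k := k) hp hq1 hG
  have i5 := ent_xau (W := W) (m := m) (k := k) hp hq1 hG
  have i6 := ent_V (W := W) (m := m) (k := k) hp hq1 hG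
  rw [← hs, ← hwdef] at i1 i2 i3 i4 i5 i6
  have i8 : CE s w (fun ω => ω.2) (fun ω => ω.1)
      ≤ CE s w (fun ω => ω.2) (fun ω => ω.1 % p ^ (W.b * k)) :=
    CE_mono_right hw _ (fun a _ b _ h => by rw [h])
  have i9 := ent_u (W := W) (m := m) (k := k) hp hq1 hG hA
  rw [← hs, ← hwdef] at i9
  -- the entropy of the word
  have i10 : CE s w (fun ω => ω.1 % p ^ (W.b * k)) (fun _ => ())
      + CE s w (fun ω => ω.2) (fun ω => ω.1 % p ^ (W.b * k))
      = CE s w (fun ω => ω.2) (fun _ => ()) := by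
    have c1 := CE_chain (s := s) (w := w) (fun ω => ω.2) (fun ω => ω.1 % p ^ (W.b * k))
      (fun _ => ())
    have c2 : CE s w (fun ω => (ω.2, ω.1 % p ^ (W.b * k))) (fun _ => ())
        = CE s w (fun ω => ω.2) (fun _ => ()) := by
      refine CE_congr (fun a _ b _ => Iff.rfl) (fun a ha b hb _ => ?_)
      simp only [Prod.mk.injEq]
      exact ⟨fun h => h.1, fun h => ⟨h, root_of_word hp ha hb h⟩⟩
    have c3 : CE s w (fun ω => ω.2) (fun ω => (ω.1 % p ^ (W.b * k), ())) =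
        CE s w (fun ω => ω.2) (fun ω => ω.1 % p ^ (W.b * k)) :=
      CE_congr (fun a _ b _ => by simp) (fun a _ b _ _ => Iff.rfl)
    linarith
  set EG := ∑ ω ∈ s, w ω * Real.log (GG p W M A k m (ω.1 : ℤ)) with hEG
  set EU := ∑ ω ∈ s, w ω * Real.log (zw p W ω.2) with hEU
  set ED := ∑ ω ∈ s, w ω * Real.log (DB p W A m (en p ω.2 (ω.1 : ℤ))) with hED
  set EV := ∑ ω ∈ s, w ω * Real.log (GG p W M A k 0 ((ω.1 % p ^ (W.b * k) : ℕ) : ℤ)) with hEV
  have hGE : GE p W M A k m q = Real.log (Zb p W A k q) + Real.log (Zb p W A m q)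
    - Real.log (ZG p W M A k m q) := rfl
  have hqR : (2 : ℝ) ≤ q := by exact_mod_cast hq
  have hJ0 : 0 ≤ ED + EV - EG := by linarith
  have hJ1 : ((q : ℝ) - 1) * (ED + EV - EG) ≤ GE p W M A k m q := by
    rw [hGE]; nlinarith
  have hJ2 : ED + EV - EG ≤ GE p W M A k m q := by nlinarith
  have hx : CE s w (fun ω => ω.1) (fun ω => (ω.2, ω.1 % p ^ (W.b * k)))
        = CE s w (fun ω => ω.1) (fun _ => ()) + CE s w (fun ω => ω.2) (fun ω => ω.1)
          - CE s w (fun ω => ω.1 % p ^ (W.b * k)) (fun _ => ())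
          - CE s w (fun ω => ω.2) (fun ω => ω.1 % p ^ (W.b * k)) := by linarith
  refine ⟨ED + EV - EG, hJ0, hJ2, by linarith, ?_, ?_, ?_⟩
  · rw [hx, hGE]
    nlinarith
  · have hGE0 : 0 ≤ GE p W M A k m q := hJ0.trans hJ2
    -- the slack of `i4`
    have h4 : Real.log (Zb p W A k q) - GE p W M A k m q ≤
        CE s w (fun ω => ω.1 % p ^ (W.b * k)) (fun _ => ()) + q * EV := by
      rw [hGE]
      nlinarith
    -- `EU = EV - J - H(u|x)`
    have h5 : EU = EV - (ED + EV - EG) - CE s w (fun ω => ω.2) (fun ω => ω.1) := by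
      rw [i2]
      ring
    have h6 : Real.log (Zb p W A k q) - GE p W M A k m q - q * (ED + EV - EG) - k * (W.b * Real.log p) ≤
        (q - 1) * CE s w (fun ω => ω.2) (fun ω => ω.1) := by
      have h7 : q * EU = q * EV - q * (ED + EV - EG) -
          q * CE s w (fun ω => ω.2) (fun ω => ω.1) := by
        rw [h5]
        ring
      linarith
    have hq1' : (0 : ℝ) < q - 1 := by linarith
    have h8 : q * (ED + EV - EG) ≤ 2 * GE p W M A k m q := by
      have : (q : ℝ) * (ED + EV - EG) ≤ 2 * ((q - 1) * (ED + EV - EG)) := by nlinarith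
      linarith
    have h9 : 3 * GE p W M A k m q ≤ (q - 1) * (3 * GE p W M A k m q) := by nlinarith
    have h10 : (Real.log (Zb p W A k q) - k * (W.b * Real.log p)) / (q - 1) ≤
        CE s w (fun ω => ω.2) (fun ω => ω.1) + 3 * GE p W M A k m q := by
      rw [div_le_iff₀ hq1']
      nlinarith
    linarith
  · rw [hx]
    have e : (q : ℝ) * (EG - EV) = q * EG - q * EV := by ring
    rw [e]
    linarith

end Law

open Law

variable {p q A k l M : ℕ} {W : Alph p}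

/-- the conditional entropy of `X` given `(Y,γ)` -/
theorem CE_X_Yg (hp : p = 3 ∨ p = 5) {m : ℕ} (hm : M * k ≤ m) (w : ℕ × List ℕ → ℝ) :
    CE (Gs p W M A k m) w (fun ω => GX p (W.b * k) ω % (p : ℤ) ^ (W.b * m))
        (fun ω => (GY p (W.b * k) ω % (p : ℤ) ^ (W.b * m), Gγ p (W.b * k) ω))
      = CE (Gs p W M A k m) w (fun ω => ω.2) (fun ω => ω.1)
        - CE (Gs p W M A k m) w (fun ω => ω.2.sum) (fun ω => ω.1) := by
  have c1 : CE (Gs p W M A k m) w (fun ω => GX p (W.b * k) ω % (p : ℤ) ^ (W.b * m))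
        (fun ω => (GY p (W.b * k) ω % (p : ℤ) ^ (W.b * m), Gγ p (W.b * k) ω))
      = CE (Gs p W M A k m) w (fun ω => ω.2) (fun ω => (ω.2.sum, ω.1)) := by
    refine CE_congr (fun a ha b hb => ?_) (fun a ha b hb h => ?_)
    · simp only [Prod.mk.injEq, Gγ]
      constructor
      · rintro ⟨h1, h2, h3⟩
        exact ⟨h3, (inj_Y hp ha hb h2 h3).1 h1⟩
      · rintro ⟨h1, h2⟩
        exact ⟨(inj_Y hp ha hb (by rw [h2]) h1).2 h2, by rw [h2], h1⟩
    · simp only [Prod.mk.injEq, Gγ] at h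
      exact inj_X hp hm ha hb h.2.1 h.2.2
  have c2 := CE_chain (s := Gs p W M A k m) (w := w) (fun ω => ω.2) (fun ω => ω.2.sum) (fun ω => ω.1)
  have c3 : CE (Gs p W M A k m) w (fun ω => (ω.2, ω.2.sum)) (fun ω => ω.1)
      = CE (Gs p W M A k m) w (fun ω => ω.2) (fun ω => ω.1) := by
    refine CE_congr (fun a ha b hb => Iff.rfl) (fun a ha b hb h => ?_)
    simp only [Prod.mk.injEq]
    constructor
    · rintro ⟨h, _⟩; exact h
    · intro h; exact ⟨h, by rw [h]⟩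
  linarith

/-- the conditional entropy of `X` given `γ` -/
theorem CE_X_g (hp : p = 3 ∨ p = 5) {m : ℕ} (hm : M * k ≤ m) (w : ℕ × List ℕ → ℝ) :
    CE (Gs p W M A k m) w (fun ω => GX p (W.b * k) ω % (p : ℤ) ^ (W.b * m)) (Gγ p (W.b * k))
      = CE (Gs p W M A k m) w (fun ω => ω.2) (fun ω => ω.1 % p ^ (W.b * k))
        - CE (Gs p W M A k m) w (fun ω => ω.2.sum) (fun ω => ω.1 % p ^ (W.b * k)) := by
  have c1 : CE (Gs p W M A k m) w (fun ω => GX p (W.b * k) ω % (p : ℤ) ^ (W.b * m)) (Gγ p (W.b * k))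
      = CE (Gs p W M A k m) w (fun ω => ω.2) (fun ω => (ω.2.sum, ω.1 % p ^ (W.b * k))) := by
    refine CE_congr (fun a ha b hb => ?_) (fun a ha b hb h => ?_)
    · simp only [Prod.mk.injEq, Gγ]
      exact and_comm
    · simp only [Gγ, Prod.mk.injEq] at h
      exact inj_X hp hm ha hb h.1 h.2
  have c2 := CE_chain (s := Gs p W M A k m) (w := w) (fun ω => ω.2) (fun ω => ω.2.sum)
    (fun ω => ω.1 % p ^ (W.b * k))
  have c3 : CE (Gs p W M A k m) w (fun ω => (ω.2, ω.2.sum)) (fun ω => ω.1 % p ^ (W.b * k))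
      = CE (Gs p W M A k m) w (fun ω => ω.2) (fun ω => ω.1 % p ^ (W.b * k)) := by
    refine CE_congr (fun a ha b hb => Iff.rfl) (fun a ha b hb h => ?_)
    simp only [Prod.mk.injEq]
    constructor
    · rintro ⟨h, _⟩; exact h
    · intro h; exact ⟨h, by rw [h]⟩
  linarith

theorem CE_Y_g (hp : p = 3 ∨ p = 5) {m : ℕ} (w : ℕ × List ℕ → ℝ) :
    CE (Gs p W M A k m) w (fun ω => GY p (W.b * k) ω % (p : ℤ) ^ (W.b * m)) (Gγ p (W.b * k))
      = CE (Gs p W M A k m) w (fun ω => ω.1) (Gγ p (W.b * k)) := by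
  refine CE_congr (fun a ha b hb => Iff.rfl) (fun a ha b hb h => ?_)
  simp only [Gγ, Prod.mk.injEq] at h
  exact inj_Y hp ha hb h.1 h.2

theorem CE_Y_ge (hp : p = 3 ∨ p = 5) (hq : 2 ≤ q) {m : ℕ} (hG : 0 < ZG p W M A k m q) :
    CE (Gs p W M A k m) (Gw p W M A k m q) (fun ω => ω.1) (fun ω => (ω.2, ω.1 % p ^ (W.b * k))) ≤
    CE (Gs p W M A k m) (Gw p W M A k m q) (fun ω => GY p (W.b * k) ω % (p : ℤ) ^ (W.b * m))
      (Gγ p (W.b * k)) := by
  have hw : ∀ ω ∈ Gs p W M A k m, 0 ≤ Gw p W M A k m q ω := fun ω _ => Gw_nonneg' hp hG ω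
  rw [CE_Y_g hp]
  refine CE_mono_right hw _ (fun a _ b _ h => ?_)
  simp only [Prod.mk.injEq] at h
  simp only [Gγ, Prod.mk.injEq]
  exact ⟨h.2, by rw [h.1]⟩

/-- (a) -/
theorem law_X (hp : p = 3 ∨ p = 5) (hq : 2 ≤ q) (hA : 1 ≤ A)
    (hG : 0 < ZG p W M A k (M * k) q) :
    (Real.log (Zb p W A k q) - k * (W.b * Real.log p)) / (q - 1) - 3 * GE p W M A k (M * k) q
        - Real.log (M * (W.b * k) + 1)
      ≤ CE (Gs p W M A k (M * k)) (Gw p W M A k (M * k) q)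
          (fun ω => GX p (W.b * k) ω % (p : ℤ) ^ (W.b * (M * k)))
          (fun ω => (GY p (W.b * k) ω % (p : ℤ) ^ (W.b * (M * k)), Gγ p (W.b * k) ω)) := by
  obtain ⟨J, hJ0, hJ1, _, _, hJ4, _⟩ := numbers (W := W) (k := k) (m := M * k) hp hq hA hG
  rw [CE_X_Yg hp le_rfl]
  have h2 : CE (Gs p W M A k (M * k)) (Gw p W M A k (M * k) q) (fun ω => ω.2.sum) (fun ω => ω.1)
      ≤ Real.log (M * (W.b * k) + 1) := by
    have h := CE_le_log (s := Gs p W M A k (M * k)) (w := Gw p W M A k (M * k) q)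
      (fun ω _ => Gw_nonneg' hp hG ω) (fun ω => ω.2.sum) (fun ω => ω.1)
      (fun _ => range (M * (W.b * k) + 1)) (N := M * (W.b * k) + 1) (by omega)
      (fun ω hω => mem_range.2 (Nat.lt_succ_of_le (mem_VS.1 (mem_Gs.1 hω).2).2))
      (fun ω hω => by rw [card_range])
    rw [Gw_total' hp (by omega) hG, one_mul] at h
    push_cast at h
    exact h
  linarith

/-- (b) -/
theorem law_sum (hp : p = 3 ∨ p = 5) (hq : 2 ≤ q) (hA : 1 ≤ A)
    (hG : 0 < ZG p W M A k (M * k) q) :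
    CE (Gs p W M A k (M * k)) (Gw p W M A k (M * k) q)
        (fun ω => (GX p (W.b * k) ω + GY p (W.b * k) ω) % (p : ℤ) ^ (W.b * (M * k)))
        (Gγ p (W.b * k))
      + 2 * CE (Gs p W M A k (M * k)) (Gw p W M A k (M * k) q)
        (fun ω => GX p (W.b * k) ω % (p : ℤ) ^ (W.b * (M * k))) (Gγ p (W.b * k))
      + CE (Gs p W M A k (M * k)) (Gw p W M A k (M * k) q)
        (fun ω => GY p (W.b * k) ω % (p : ℤ) ^ (W.b * (M * k))) (Gγ p (W.b * k))
      - 2 * CE (Gs p W M A k (M * k)) (Gw p W M A k (M * k) q)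
        (fun ω => (GX p (W.b * k) ω % (p : ℤ) ^ (W.b * (M * k)),
          GY p (W.b * k) ω % (p : ℤ) ^ (W.b * (M * k)))) (Gγ p (W.b * k))
      ≤ 4 * GE p W M A k (M * k) q := by
  obtain ⟨J, hJ0, hJ1, hJ2, hJ3, _, _⟩ := numbers (W := W) (k := k) (m := M * k) hp hq hA hG
  have hw : ∀ ω ∈ Gs p W M A k (M * k), 0 ≤ Gw p W M A k (M * k) q ω :=
    fun ω _ => Gw_nonneg' hp hG ω
  rw [CE_chain, CE_X_Yg hp le_rfl, CE_X_g hp le_rfl]
  have h1 : CE (Gs p W M A k (M * k)) (Gw p W M A k (M * k) q)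
        (fun ω => (GX p (W.b * k) ω + GY p (W.b * k) ω) % (p : ℤ) ^ (W.b * (M * k)))
        (Gγ p (W.b * k))
      ≤ CE (Gs p W M A k (M * k)) (Gw p W M A k (M * k) q)
        (fun ω => (GX p (W.b * k) ω + GY p (W.b * k) ω) % (p : ℤ) ^ (W.b * (M * k)))
        (fun _ => ()) :=
    CE_mono_right hw _ (fun _ _ _ _ _ => rfl)
  have h2 := CE_Y_ge (W := W) (k := k) (m := M * k) hp hq hG
  have h4 : CE (Gs p W M A k (M * k)) (Gw p W M A k (M * k) q) (fun ω => ω.2.sum) (fun ω => ω.1)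
      ≤ CE (Gs p W M A k (M * k)) (Gw p W M A k (M * k) q) (fun ω => ω.2.sum)
        (fun ω => ω.1 % p ^ (W.b * k)) :=
    CE_mono_right hw _ (fun a _ b _ h => by rw [h])
  linarith

theorem t_GW : S_GW := fun p hp W M A k m q hq hG =>
  ⟨fun ω _ => Gw_nonneg' hp hG ω, Gw_total' hp (by omega) hG⟩

theorem t_LX : S_LX := fun p hp W M A k q hq hA hG => law_X hp hq hA hG

theorem t_LS : S_LS := fun p hp W M A k q hq hA hG => law_sum hp hq hA hG

/-- the lower bound of the entropy of the high digits of the root -/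
theorem t_N6 : ∀ (p : ℕ), (p = 3 ∨ p = 5) → ∀ (W : Alph p) (M A k m q : ℕ), 2 ≤ q → 1 ≤ A →
    0 < ZG p W M A k m q →
    Real.log (ZG p W M A k m q) - Real.log (Zb p W A k q) - GE p W M A k m q
      - q * (∑ ω ∈ Gs p W M A k m, Gw p W M A k m q ω *
        (Real.log (GG p W M A k m (ω.1 : ℤ)) - Real.log (GG p W M A k 0 (ω.1 : ℤ))))
      ≤ CE (Gs p W M A k m) (Gw p W M A k m q)
          (fun ω => GY p (W.b * k) ω % (p : ℤ) ^ (W.b * m)) (Gγ p (W.b * k)) := by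
  intro p hp W M A k m q hq hA hG
  obtain ⟨_, _, _, _, _, _, h6⟩ := numbers (W := W) (k := k) (m := m) hp hq hA hG
  exact h6.trans (CE_Y_ge hp hq hG)

end Pool.Agent.N685.WB
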