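import Pool.Agent.N685.WB.Stm
import Pool.Agent.Y966.NQ.LawR

/-! Ratios of the truncated martingale along windows of digits. -/

set_option autoImplicit false
set_option linter.unusedVariables false

namespace Pool.Agent.N685.WB

open Finset Pool.Agent.H320R2.PD Pool.Agent.H377R2.NK

/-- N6: the entropy of the digits, from the part WB-LAW -/
def S_N6 : Prop := ∀ (p : ℕ), (p = 3 ∨ p = 5) → ∀ (W : Alph p) (M A k m q : ℕ), 2 ≤ q → 1 ≤ A →
  0 < ZG p W M A k m q →
    Real.log (ZG p W M A k m q) - Real.log (Zb p W A k q) - GE p W M A k m q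
      - q * (∑ ω ∈ Gs p W M A k m, Gw p W M A k m q ω *
          (Real.log (GG p W M A k m (ω.1 : ℤ)) - Real.log (GG p W M A k 0 (ω.1 : ℤ))))
      ≤ CE (Gs p W M A k m) (Gw p W M A k m q)
          (fun ω => GY p (W.b * k) ω % (p : ℤ) ^ (W.b * m)) (Gγ p (W.b * k))

namespace LawR

open Pool.Agent.Y966.NQ.LawR (Gr_eq Gr_add inv_coprime telescope)

section

variable {p q M A k m l : ℕ} {W : Alph p}

theorem odd' (hp : p = 3 ∨ p = 5) : Odd p := by rcases hp with rfl | rfl <;> decide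

theorem one_le' (hp : p = 3 ∨ p = 5) : 1 ≤ p := by omega

/-! ### the Gibbs law -/

theorem VS_sub_FW {x : ℤ} : VS p W M A k x ⊆ FW A (W.b * k) :=
  (filter_subset _ _).trans (filter_subset _ _)

theorem sum_Gs (F : ℕ × List ℕ → ℝ) :
    ∑ ω ∈ Gs p W M A k m, F ω
      = ∑ x ∈ range (p ^ (W.b * (k + m))), ∑ u ∈ VS p W M A k (x : ℤ), F (x, u) := by
  classical
  unfold Gs
  rw [sum_filter, sum_product]
  refine sum_congr rfl fun x hx => ?_
  rw [← sum_filter]
  refine sum_congr ?_ fun _ _ => rfl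
  ext u
  simp only [mem_filter]
  exact ⟨fun h => h.2, fun h => ⟨VS_sub_FW h, h⟩⟩

theorem w_nonneg (hG : 0 < ZG p W M A k m q) (ω : ℕ × List ℕ) : 0 ≤ Gw p W M A k m q ω := by
  unfold Gw
  have hzw : 0 < zw p W ω.2 := zw_pos _
  have h1 : 0 ≤ GG p W M A k m (ω.1 : ℤ) := GG_nonneg _ _ _ _
  have h2 : 0 ≤ DB p W A m (en p ω.2 (ω.1 : ℤ)) := DB_nonneg _ _ _
  positivity

theorem sum_root (hq : 1 ≤ q) (x : ℕ) :
    ∑ u ∈ VS p W M A k (x : ℤ), Gw p W M A k m q (x, u)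
      = GG p W M A k m (x : ℤ) ^ q / ZG p W M A k m q := by
  unfold Gw
  simp only
  rw [← sum_div, ← mul_sum]
  congr 1
  have : ∑ u ∈ VS p W M A k (x : ℤ), zw p W u * DB p W A m (en p u (x : ℤ))
      = GG p W M A k m (x : ℤ) := rfl
  rw [this, ← pow_succ]
  congr 1
  omega

theorem w_total (hq : 1 ≤ q) (hG : 0 < ZG p W M A k m q) :
    ∑ ω ∈ Gs p W M A k m, Gw p W M A k m q ω = 1 := by
  rw [sum_Gs]
  rw [sum_congr rfl fun x _ => sum_root (A := A) (k := k) (m := m) hq x]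
  rw [← sum_div]
  exact div_self hG.ne'

theorem GG_pos_of (hq : 2 ≤ q) {ω : ℕ × List ℕ} (h : 0 < Gw p W M A k m q ω) :
    0 < GG p W M A k m (ω.1 : ℤ) := by
  rcases (GG_nonneg (p := p) (M := M) (W := W) A k m (ω.1 : ℤ)).lt_or_eq with h1 | h1
  · exact h1
  · exfalso
    unfold Gw at h
    rw [← h1, zero_pow (by omega)] at h
    simp at h

/-! ### the ratios -/

theorem bdiv_le (W : Alph p) (k i l : ℕ) : W.b * (k + (i / W.b + l)) ≤ W.b * k + (i + W.b * l) := by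
  have h := Nat.mul_div_le i W.b
  calc W.b * (k + (i / W.b + l)) = W.b * k + (W.b * (i / W.b) + W.b * l) := by ring
    _ ≤ _ := by omega

theorem bdiv_le' (W : Alph p) (k i : ℕ) : W.b * (k + i / W.b) ≤ W.b * k + i := by
  have h := Nat.mul_div_le i W.b
  calc W.b * (k + i / W.b) = W.b * k + W.b * (i / W.b) := by ring
    _ ≤ _ := by omega

theorem GR_nonneg (m l i : ℕ) (g : ℕ × ℕ) (y : ℤ) : 0 ≤ GR p W M A k m l i g y :=
  div_nonneg (GG_nonneg _ _ _ _) (mul_nonneg (by positivity) (GG_nonneg _ _ _ _))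

theorem GR_eq (hp : p = 3 ∨ p = 5) {i : ℕ} (hi : i + W.b * l ≤ W.b * m) (ω : ℕ × List ℕ) :
    GR p W M A k m l i (Gγ p (W.b * k) ω) (GY p (W.b * k) ω % (p : ℤ) ^ (i + W.b * l))
      = GG p W M A k (i / W.b + l) (ω.1 : ℤ) /
        ((p : ℝ) ^ W.b * GG p W M A k (i / W.b) (ω.1 : ℤ)) := by
  obtain ⟨t, ht⟩ := Gr_eq (k := W.b * k) hp hi ω
  unfold GR
  rw [ht, GG_shift' (odd' hp) (bdiv_le W k i l),
    GG_shift' (odd' hp) ((bdiv_le' W k i).trans (by omega))]

theorem GR_add (hp : p = 3 ∨ p = 5) {m i : ℕ} (g : ℕ × ℕ) (y v : ℤ) :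
    GR p W M A k m l i g (y + (p : ℤ) ^ i * v)
      = GG p W M A k (i / W.b + l) (Gr p (W.b * k) (W.b * m) g (y + (p : ℤ) ^ i * v)) /
        ((p : ℝ) ^ W.b * GG p W M A k (i / W.b) (Gr p (W.b * k) (W.b * m) g y)) := by
  unfold GR
  congr 2
  rw [Gr_add, GG_shift' (odd' hp) (bdiv_le' W k i)]

/-- sums of functions along a window -/
theorem window_sum (hp : p = 3 ∨ p = 5) {m i : ℕ} (hi : i + W.b * l ≤ W.b * m) (g : ℕ × ℕ) (y : ℤ)
    (φ : ℝ → ℝ) :
    ∑ v ∈ range (p ^ (W.b * l)),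
        φ (GG p W M A k (i / W.b + l) (Gr p (W.b * k) (W.b * m) g (y + (p : ℤ) ^ i * v)))
      = ∑ v ∈ range (p ^ (W.b * l)), φ (GG p W M A k (i / W.b + l)
          (Gr p (W.b * k) (W.b * m) g y + (p : ℤ) ^ (W.b * k + i) * (v : ℤ))) := by
  rcases Nat.eq_zero_or_pos (W.b * m) with hm | hm
  · have : W.b * l = 0 := by omega
    rw [this]
    simp
  have h := sum_affine (p := p) (by omega) (W.b * l)
    ((((p ^ (W.b * m) + 1) / 2 : ℕ) : ℤ) ^ g.2) 0
    (inv_coprime hp hm g.2)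
    (h := fun v => φ (GG p W M A k (i / W.b + l)
      (Gr p (W.b * k) (W.b * m) g y + (p : ℤ) ^ (W.b * k + i) * v))) (by
      intro a b
      have : Gr p (W.b * k) (W.b * m) g y + (p : ℤ) ^ (W.b * k + i) * (a + (p : ℤ) ^ (W.b * l) * b)
          = Gr p (W.b * k) (W.b * m) g y + (p : ℤ) ^ (W.b * k + i) * a +
            (p : ℤ) ^ (W.b * k + (i + W.b * l)) * b := by ring
      show φ (GG p W M A k (i / W.b + l) (Gr p (W.b * k) (W.b * m) g y +
          (p : ℤ) ^ (W.b * k + i) * (a + (p : ℤ) ^ (W.b * l) * b)))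
        = φ (GG p W M A k (i / W.b + l)
          (Gr p (W.b * k) (W.b * m) g y + (p : ℤ) ^ (W.b * k + i) * a))
      rw [this, GG_shift' (odd' hp) (bdiv_le W k i l)])
  rw [← h]
  refine sum_congr rfl fun v _ => ?_
  rw [Gr_add, zero_add]

/-- a misaligned window costs at most `p^b` -/
theorem misaligned (hp : p = 3 ∨ p = 5) {N s c : ℕ} (hs : s ≤ c) (f : ℤ → ℝ) (hf : ∀ x, 0 ≤ f x)
    (hper : ∀ x y, f (x + (p : ℤ) ^ N * y) = f x) :
    ∑ v ∈ range (p ^ N), f ((p : ℤ) ^ s * v) ≤ (p : ℝ) ^ c * ∑ v ∈ range (p ^ N), f (v : ℤ) := by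
  have hp1 := one_le' hp
  have hp1' : (1 : ℝ) ≤ p := by exact_mod_cast hp1
  have h1 := Pool.Agent.Y966.NQ.LawR.sum_range_split (p := p) (k := s) (m := N)
    (fun x : ℕ => f (x : ℤ)) hp1
  have h2 := Pool.Agent.Y966.NQ.LawR.sum_range_split (p := p) (k := N) (m := s)
    (fun x : ℕ => f (x : ℤ)) hp1
  have h3 : ∑ v ∈ range (p ^ N), f ((p : ℤ) ^ s * v) ≤
      ∑ a ∈ range (p ^ s), ∑ h ∈ range (p ^ N), f ((a + p ^ s * h : ℕ) : ℤ) := by
    have h0 : (0 : ℕ) ∈ range (p ^ s) := mem_range.2 (pow_pos hp1 _)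
    refine le_trans (le_of_eq ?_) (single_le_sum
      (f := fun a : ℕ => ∑ h ∈ range (p ^ N), f ((a + p ^ s * h : ℕ) : ℤ))
      (fun a _ => sum_nonneg fun h _ => hf _) h0)
    refine sum_congr rfl fun v _ => ?_
    push_cast
    rw [zero_add]
  have h4 : ∑ a ∈ range (p ^ N), ∑ h ∈ range (p ^ s), f ((a + p ^ N * h : ℕ) : ℤ) =
      (p : ℝ) ^ s * ∑ v ∈ range (p ^ N), f (v : ℤ) := by
    rw [mul_sum]
    refine sum_congr rfl fun a _ => ?_
    have : ∀ h ∈ range (p ^ s), f ((a + p ^ N * h : ℕ) : ℤ) = f (a : ℤ) := by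
      intro h _
      push_cast
      exact hper _ _
    rw [sum_congr rfl this, sum_const, card_range, nsmul_eq_mul]
    push_cast
    rfl
  rw [add_comm s N] at h1
  rw [h1] at h2
  rw [h2, h4] at h3
  refine h3.trans ?_
  exact mul_le_mul_of_nonneg_right (pow_le_pow_right₀ hp1' hs) (sum_nonneg fun v _ => hf _)

theorem window_le (hp : p = 3 ∨ p = 5) (i : ℕ) (r : ℤ) (φ : ℝ → ℝ) (hφ : ∀ x, 0 ≤ x → 0 ≤ φ x) :
    ∑ v ∈ range (p ^ (W.b * l)),
        φ (GG p W M A k (i / W.b + l) (r + (p : ℤ) ^ (W.b * k + i) * v)) ≤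
    (p : ℝ) ^ W.b * ∑ v ∈ range (p ^ (W.b * l)),
      φ (GG p W M A k (i / W.b + l) (r + (p : ℤ) ^ (W.b * (k + i / W.b)) * v)) := by
  have hp1 := one_le' hp
  have h := misaligned (N := W.b * l) (s := i % W.b) (c := W.b) hp
    (Nat.mod_lt i (by have := W.hb; omega)).le
    (fun v => φ (GG p W M A k (i / W.b + l) (r + (p : ℤ) ^ (W.b * (k + i / W.b)) * v)))
    (fun x => hφ _ (GG_nonneg _ _ _ _)) (by
      intro x y
      have : r + (p : ℤ) ^ (W.b * (k + i / W.b)) * (x + (p : ℤ) ^ (W.b * l) * y) =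
          r + (p : ℤ) ^ (W.b * (k + i / W.b)) * x + (p : ℤ) ^ (W.b * (k + (i / W.b + l))) * y := by
        have e : W.b * (k + (i / W.b + l)) = W.b * (k + i / W.b) + W.b * l := by ring
        rw [e, pow_add]; ring
      simp only [this, GG_shift (odd' hp)])
  refine le_trans (le_of_eq ?_) h
  refine sum_congr rfl fun v _ => ?_
  have e1 : (p : ℤ) ^ (W.b * k + i) = (p : ℤ) ^ (W.b * (k + i / W.b)) * (p : ℤ) ^ (i % W.b) := by
    rw [← pow_add]
    congr 1
    have := Nat.div_add_mod i W.b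
    calc W.b * k + i = W.b * k + (W.b * (i / W.b) + i % W.b) := by rw [this]
      _ = _ := by ring
  simp only [e1, mul_assoc]

theorem GR_sum (hp : p = 3 ∨ p = 5) (m i : ℕ) (hi : i + W.b * l ≤ W.b * m) (g : ℕ × ℕ) (y : ℤ) :
    ∑ v ∈ range (p ^ (W.b * l)), GR p W M A k m l i g (y + (p : ℤ) ^ i * v) ≤
      (p : ℝ) ^ (W.b * l) := by
  have hp1 := one_le' hp
  have hp0 : (0 : ℝ) < p := by exact_mod_cast hp1
  have h0 : ∀ v ∈ range (p ^ (W.b * l)), GR p W M A k m l i g (y + (p : ℤ) ^ i * v) =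
      GG p W M A k (i / W.b + l) (Gr p (W.b * k) (W.b * m) g (y + (p : ℤ) ^ i * v)) /
        ((p : ℝ) ^ W.b * GG p W M A k (i / W.b) (Gr p (W.b * k) (W.b * m) g y)) :=
    fun v _ => GR_add hp g y v
  rw [sum_congr rfl h0, ← sum_div]
  have h1 := window_sum (M := M) (A := A) (k := k) (W := W) hp hi g y (fun t => t)
  rw [h1]
  have h2 := window_le (M := M) (A := A) (W := W) (k := k) (l := l) hp i
    (Gr p (W.b * k) (W.b * m) g y) (fun t => t) (fun x hx => hx)
  have h4 := GG_lift (M := M) (W := W) (odd' hp) A k (i / W.b) l (Gr p (W.b * k) (W.b * m) g y)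
  have h5 := h2.trans (mul_le_mul_of_nonneg_left h4 (show (0 : ℝ) ≤ (p : ℝ) ^ W.b by positivity))
  rcases (GG_nonneg (p := p) (M := M) (W := W) A k (i / W.b)
    (Gr p (W.b * k) (W.b * m) g y)).lt_or_eq with h3 | h3
  · rw [div_le_iff₀ (by positivity)]
    refine h5.trans (le_of_eq ?_)
    ring
  · rw [← h3, mul_zero, div_zero]; positivity

theorem GR_sum_pow (hp : p = 3 ∨ p = 5) (hq : 2 ≤ q) (m i : ℕ) (hi : i + W.b * l ≤ W.b * m)
    (g : ℕ × ℕ) (y : ℤ) :
    ∑ v ∈ range (p ^ (W.b * l)), GR p W M A k m l i g (y + (p : ℤ) ^ i * v) ^ q ≤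
      Zb p W A l q := by
  have hp1 := one_le' hp
  have hp1' : (1 : ℝ) ≤ p := by exact_mod_cast hp1
  have hp0 : (0 : ℝ) < p := by exact_mod_cast hp1
  have h0 : ∀ v ∈ range (p ^ (W.b * l)), GR p W M A k m l i g (y + (p : ℤ) ^ i * v) ^ q =
      GG p W M A k (i / W.b + l) (Gr p (W.b * k) (W.b * m) g (y + (p : ℤ) ^ i * v)) ^ q /
        ((p : ℝ) ^ W.b * GG p W M A k (i / W.b) (Gr p (W.b * k) (W.b * m) g y)) ^ q := by
    intro v _
    rw [GR_add hp g y v, div_pow]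
  rw [sum_congr rfl h0, ← sum_div]
  have h1 := window_sum (M := M) (A := A) (k := k) (W := W) hp hi g y (fun t => t ^ q)
  rw [h1]
  have h2 := window_le (M := M) (A := A) (W := W) (k := k) (l := l) hp i
    (Gr p (W.b * k) (W.b * m) g y) (fun t => t ^ q) (fun x hx => pow_nonneg hx _)
  have h4 := GG_lift_pow (M := M) (W := W) (odd' hp) (by omega : 1 ≤ q) A k (i / W.b) l
    (Gr p (W.b * k) (W.b * m) g y)
  have h5 := mul_le_mul_of_nonneg_left h4 (show (0 : ℝ) ≤ (p : ℝ) ^ W.b by positivity)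
  have h6 := h2.trans h5
  rcases (GG_nonneg (p := p) (M := M) (W := W) A k (i / W.b)
    (Gr p (W.b * k) (W.b * m) g y)).lt_or_eq with h3 | h3
  · rw [div_le_iff₀ (by positivity)]
    refine h6.trans ?_
    have h7 : (1 : ℝ) ≤ (p : ℝ) ^ W.b := one_le_pow₀ hp1'
    have h8 : (p : ℝ) ^ W.b ≤ ((p : ℝ) ^ W.b) ^ q := by
      calc (p : ℝ) ^ W.b = ((p : ℝ) ^ W.b) ^ 1 := (pow_one _).symm
        _ ≤ _ := pow_le_pow_right₀ h7 (by omega)
    have h9 : 0 ≤ GG p W M A k (i / W.b) (Gr p (W.b * k) (W.b * m) g y) ^ q * Zb p W A l q :=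
      mul_nonneg (by positivity) (Zb_nonneg _ _ _)
    calc (p : ℝ) ^ W.b *
          (GG p W M A k (i / W.b) (Gr p (W.b * k) (W.b * m) g y) ^ q * Zb p W A l q)
        ≤ ((p : ℝ) ^ W.b) ^ q *
          (GG p W M A k (i / W.b) (Gr p (W.b * k) (W.b * m) g y) ^ q * Zb p W A l q) :=
          mul_le_mul_of_nonneg_right h8 h9
      _ = _ := by rw [mul_pow]; ring
  · rw [← h3, mul_zero, zero_pow (by omega), div_zero]
    exact Zb_nonneg _ _ _

theorem GG_down (hp : p = 3 ∨ p = 5) {i : ℕ} (hi : i ≤ m) {x : ℤ}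
    (h : 0 < GG p W M A k m x) : 0 < GG p W M A k i x := by
  have hp0 : (0 : ℝ) < p := by exact_mod_cast one_le' hp
  obtain ⟨j, rfl⟩ := Nat.exists_eq_add_of_le hi
  have h1 := GG_add_le (M := M) (W := W) (odd' hp) A k i j x
  have h2 : 0 < ((p : ℝ) ^ W.b) ^ j * GG p W M A k i x := lt_of_lt_of_le h h1
  exact (pos_iff_pos_of_mul_pos h2).1 (by positivity)

theorem GR_pos (hp : p = 3 ∨ p = 5) (hq : 2 ≤ q) (i : ℕ)
    (hi : i + W.b * l ≤ W.b * m) (ω : ℕ × List ℕ) (h : 0 < Gw p W M A k m q ω) :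
    0 < GR p W M A k m l i (Gγ p (W.b * k) ω) (GY p (W.b * k) ω % (p : ℤ) ^ (i + W.b * l)) := by
  have hp0 : (0 : ℝ) < p := by exact_mod_cast one_le' hp
  have hb := W.hb
  rw [GR_eq hp hi]
  have h1 := GG_pos_of hq h
  have e1 : i / W.b + l ≤ m := by
    have h2 : W.b * (i / W.b + l) ≤ W.b * m := by
      have := Nat.mul_div_le i W.b
      rw [mul_add]; omega
    exact Nat.le_of_mul_le_mul_left h2 (by omega)
  have h3 := GG_down hp e1 h1
  have h4 := GG_down hp (show i / W.b ≤ m by omega) h1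
  positivity

theorem logR_ge (hp : p = 3 ∨ p = 5) (hq : 2 ≤ q) (hl : 1 ≤ l) {r : ℕ} (hr : r < W.b * l)
    (hlm : l ≤ m) {ω : ℕ × List ℕ} (h : 0 < Gw p W M A k m q ω) :
    Real.log (GG p W M A k m (ω.1 : ℤ)) - Real.log (GG p W M A k 0 (ω.1 : ℤ))
        - (2 * l + m / l) * (W.b * Real.log p)
      ≤ ∑ i ∈ (range (W.b * m)).filter (fun i => i % (W.b * l) = r ∧ i + W.b * l ≤ W.b * m),
        Real.log (GR p W M A k m l i (Gγ p (W.b * k) ω)
          (GY p (W.b * k) ω % (p : ℤ) ^ (i + W.b * l))) := by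
  have hG := GG_pos_of hq h
  have hb := W.hb
  have hp1 : (1 : ℝ) < p := by
    have : 1 < p := by omega
    exact_mod_cast this
  have hp0 : (0 : ℝ) < p := by linarith
  have hlp : 0 < Real.log p := Real.log_pos hp1
  have hbl : 1 ≤ W.b * l := Nat.mul_pos hb hl
  have hblm : W.b * l ≤ W.b * m := Nat.mul_le_mul_left _ hlm
  have hbr : (0 : ℝ) < W.b := by exact_mod_cast hb
  have hlr : (0 : ℝ) < l := by exact_mod_cast hl
  have hup : ∀ i j : ℕ, i + j ≤ m → Real.log (GG p W M A k (i + j) (ω.1 : ℤ))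
      ≤ j * (W.b * Real.log p) + Real.log (GG p W M A k i (ω.1 : ℤ)) := by
    intro i j hij
    have h1 := GG_add_le (M := M) (W := W) (odd' hp) A k i j (ω.1 : ℤ)
    have h2 : 0 < GG p W M A k i (ω.1 : ℤ) := GG_down hp (by omega) hG
    have h3 : 0 < GG p W M A k (i + j) (ω.1 : ℤ) := GG_down hp hij hG
    have h4 := Real.log_le_log h3 h1
    rwa [Real.log_mul (by positivity) h2.ne', Real.log_pow, Real.log_pow] at h4
  obtain ⟨e, he1, he2, he3⟩ := telescope (l := W.b * l) (m := W.b * m)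
    (fun i => Real.log (GG p W M A k (i / W.b) (ω.1 : ℤ))) hbl hr (by omega)
  obtain ⟨e', he1', he2', he3'⟩ := telescope (l := W.b * l) (m := W.b * m)
    (fun i => (i : ℝ)) hbl hr (by omega)
  set F := (range (W.b * m)).filter (fun i => i % (W.b * l) = r ∧ i + W.b * l ≤ W.b * m) with hF
  -- the number of windows
  have hcard : (F.card : ℝ) * (W.b * l) ≤ W.b * m := by
    have e1 : ∑ i ∈ F, (((i + W.b * l : ℕ) : ℝ) - (i : ℝ)) = F.card * (W.b * l) := by
      rw [sum_congr rfl (g := fun _ => ((W.b : ℝ) * l)) (fun i _ => by push_cast; ring), sum_const,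
        nsmul_eq_mul]
    rw [e1] at he3'
    rw [he3']
    have h1 : (e' : ℝ) ≤ ((W.b * m : ℕ) : ℝ) := by exact_mod_cast he2'
    push_cast at h1
    have h2 : (0 : ℝ) ≤ r := Nat.cast_nonneg r
    linarith
  have hcard' : (F.card : ℝ) ≤ m / l := by
    rw [le_div_iff₀ hlr]
    have h1 : (W.b : ℝ) * (F.card * l) ≤ W.b * m := by linarith
    exact le_of_mul_le_mul_left h1 hbr
  have h1 : ∑ i ∈ F, Real.log (GR p W M A k m l i (Gγ p (W.b * k) ω)
          (GY p (W.b * k) ω % (p : ℤ) ^ (i + W.b * l)))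
      = Real.log (GG p W M A k (e / W.b) (ω.1 : ℤ)) - Real.log (GG p W M A k (r / W.b) (ω.1 : ℤ))
        - F.card * (W.b * Real.log p) := by
    rw [← he3, ← nsmul_eq_mul, ← sum_const, ← sum_sub_distrib]
    refine sum_congr rfl fun i hi => ?_
    have hi' := (mem_filter.1 hi).2.2
    have e1 : i / W.b + l ≤ m := by
      have h2 : W.b * (i / W.b + l) ≤ W.b * m := by
        have := Nat.mul_div_le i W.b
        rw [mul_add]; omega
      exact Nat.le_of_mul_le_mul_left h2 (by omega)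
    have e2 : (i + W.b * l) / W.b = i / W.b + l := Nat.add_mul_div_left i l (by omega)
    have h3 := GG_down hp e1 hG
    have h4 := GG_down hp (show i / W.b ≤ m by omega) hG
    rw [GR_eq hp hi', Real.log_div h3.ne' (by positivity), Real.log_mul (by positivity) h4.ne',
      Real.log_pow, e2]
    ring
  rw [h1]
  -- the ends
  have g1 : m - l ≤ e / W.b := by
    rw [Nat.le_div_iff_mul_le (by omega), Nat.sub_mul, mul_comm m, mul_comm l]
    omega
  have g2 : e / W.b ≤ m := by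
    have := Nat.div_le_div_right (c := W.b) he2
    rwa [Nat.mul_div_cancel_left _ (by omega)] at this
  have g3 : r / W.b ≤ l := by
    have := Nat.div_le_div_right (c := W.b) hr.le
    rwa [Nat.mul_div_cancel_left _ (by omega)] at this
  have g4 := hup (e / W.b) (m - e / W.b) (by omega)
  have g5 : e / W.b + (m - e / W.b) = m := by omega
  rw [g5] at g4
  have g6 := hup 0 (r / W.b) (by omega)
  rw [Nat.zero_add] at g6
  have hbl' : 0 ≤ (W.b : ℝ) * Real.log p := by positivity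
  have g7 : ((m - e / W.b : ℕ) : ℝ) * (W.b * Real.log p) ≤ l * (W.b * Real.log p) := by
    apply mul_le_mul_of_nonneg_right _ hbl'
    exact_mod_cast (by omega : m - e / W.b ≤ l)
  have g8 : ((r / W.b : ℕ) : ℝ) * (W.b * Real.log p) ≤ l * (W.b * Real.log p) := by
    apply mul_le_mul_of_nonneg_right _ hbl'
    exact_mod_cast g3
  have g9 := mul_le_mul_of_nonneg_right hcard' hbl'
  have g10 : (2 * (l : ℝ) + m / l) * (W.b * Real.log p) =
      l * (W.b * Real.log p) + l * (W.b * Real.log p) + (m / l : ℝ) * (W.b * Real.log p) := by ring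
  rw [g10]
  linarith

end

end LawR

open LawR

/-- the ratios -/
theorem t_GR : S_GR := by
  intro p hp W M A k m l q hq hA hG
  exact ⟨fun i g y => GR_nonneg m l i g y, fun i hi ω _ hpos => GR_pos hp hq i hi ω hpos,
    fun i hi g y => GR_sum hp m i hi g y, fun i hi g y => GR_sum_pow hp hq m i hi g y⟩

/-- (e) -/
theorem t_LR (h : S_N6) : S_LR := by
  intro p hp W M A k m l q hq hA hl hlm hG r hr
  have hw : ∀ ω ∈ Gs p W M A k m, 0 ≤ Gw p W M A k m q ω := fun ω _ => w_nonneg hG ω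
  have h0 := h p hp W M A k m q hq hA hG
  have h3 : ∑ ω ∈ Gs p W M A k m, Gw p W M A k m q ω *
      (Real.log (GG p W M A k m (ω.1 : ℤ)) - Real.log (GG p W M A k 0 (ω.1 : ℤ))
        - (2 * l + m / l) * (W.b * Real.log p))
      ≤ ∑ ω ∈ Gs p W M A k m, Gw p W M A k m q ω *
        ∑ i ∈ (range (W.b * m)).filter (fun i => i % (W.b * l) = r ∧ i + W.b * l ≤ W.b * m),
          Real.log (GR p W M A k m l i (Gγ p (W.b * k) ω)
            (GY p (W.b * k) ω % (p : ℤ) ^ (i + W.b * l))) :=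
    Pool.Agent.Y966.NQ.LawR.esum_le hw fun ω hω hpos => logR_ge hp hq hl hr hlm hpos
  have h4 : ∑ ω ∈ Gs p W M A k m, Gw p W M A k m q ω *
        ∑ i ∈ (range (W.b * m)).filter (fun i => i % (W.b * l) = r ∧ i + W.b * l ≤ W.b * m),
          Real.log (GR p W M A k m l i (Gγ p (W.b * k) ω)
            (GY p (W.b * k) ω % (p : ℤ) ^ (i + W.b * l)))
      = ∑ i ∈ (range (W.b * m)).filter (fun i => i % (W.b * l) = r ∧ i + W.b * l ≤ W.b * m),
            ∑ ω ∈ Gs p W M A k m, Gw p W M A k m q ω *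
              Real.log (GR p W M A k m l i (Gγ p (W.b * k) ω)
                (GY p (W.b * k) ω % (p : ℤ) ^ (i + W.b * l))) := by
    rw [sum_comm]
    refine sum_congr rfl fun ω _ => ?_
    rw [mul_sum]
  have h5 : ∑ ω ∈ Gs p W M A k m, Gw p W M A k m q ω *
      (Real.log (GG p W M A k m (ω.1 : ℤ)) - Real.log (GG p W M A k 0 (ω.1 : ℤ))
        - (2 * l + m / l) * (W.b * Real.log p))
      = ∑ ω ∈ Gs p W M A k m, Gw p W M A k m q ω *
        (Real.log (GG p W M A k m (ω.1 : ℤ)) - Real.log (GG p W M A k 0 (ω.1 : ℤ)))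
        - (2 * l + m / l) * (W.b * Real.log p) := by
    have h6 : (2 * (l : ℝ) + m / l) * (W.b * Real.log p)
        = ∑ ω ∈ Gs p W M A k m, Gw p W M A k m q ω * ((2 * l + m / l) * (W.b * Real.log p)) := by
      rw [← sum_mul, w_total (by omega) hG, one_mul]
    rw [h6, ← sum_sub_distrib]
    refine sum_congr rfl fun ω _ => ?_
    rw [← h6]
    ring
  rw [h4, h5] at h3
  have h6 : (0 : ℝ) ≤ q := by positivity
  have h7 := mul_le_mul_of_nonneg_left h3 h6
  have hGE : GE p W M A k m q = Real.log (Zb p W A k q) + Real.log (Zb p W A m q)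
    - Real.log (ZG p W M A k m q) := rfl
  rw [mul_sub] at h7
  linarith

end Pool.Agent.N685.WB
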