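import Pool.Agent.H377R2.NK.Core
import Pool.Agent.N685.WB.Stm

/-! The growth of the moments for block weights with unbounded letters, and the sup law.
(helper499, for the project FT of helper685.) -/

set_option autoImplicit false
set_option linter.unusedVariables false

namespace Pool.Agent.N685.WB

open Finset Filter Topology Pool.Agent.H320R2.PD Pool.Agent.H377R2.NK

section Up

variable {p q : ℕ}

lemma up_odd (hp : p = 3 ∨ p = 5) : Odd p := by rcases hp with rfl | rfl <;> decide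

lemma up_prime (hp : p = 3 ∨ p = 5) : p.Prime := by rcases hp with rfl | rfl <;> norm_num

lemma up_log (hp : p = 3 ∨ p = 5) : 1 < Real.log p := by
  have h3 : (1 : ℝ) < Real.log 3 := by
    have := Real.exp_one_lt_d9
    rw [Real.lt_log_iff_exp_lt (by norm_num)]
    linarith
  rcases hp with rfl | rfl
  · exact_mod_cast h3
  · refine lt_trans h3 ?_
    push_cast
    exact Real.log_lt_log (by norm_num) (by norm_num)

lemma up_sub (W : Alph p) (hp : p = 3 ∨ p = 5) (hq : 2 ≤ q) :
    Subadditive fun n => Real.log (sZ p W q n) := by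
  intro m n
  rw [← Real.log_mul (sZ_pos (up_odd hp) q m).ne' (sZ_pos (up_odd hp) q n).ne']
  exact Real.log_le_log (sZ_pos (up_odd hp) q _) (sZ_sub (up_odd hp) (by omega) m n)

/-- a crude lower bound -/
lemma up_low (W : Alph p) (hp : p = 3 ∨ p = 5) (hq : 2 ≤ q) (n : ℕ) :
    (n : ℝ) * (q * Real.log (∑ u ∈ FW 1 W.b, W.om u) - (q - 1) * (W.b * Real.log p)) ≤
      Real.log (sZ p W q n) := by
  have hodd := up_odd hp
  have hT0 : 0 < ∑ u ∈ FW 1 W.b, W.om u := sum_om_pos le_rfl
  have hpn : 0 < p := (up_prime hp).pos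
  obtain ⟨r, rfl⟩ : ∃ r, q = r + 1 := ⟨q - 1, by omega⟩
  have h1 := pow_sum_div_card_le_sum_pow (s := range (p ^ (W.b * n)))
    (f := fun x : ℕ => DB p W 1 n (x : ℤ)) (fun x _ => DB_nonneg 1 n _) r
  rw [DB_total_eq hodd, sum_zw_eq, card_range] at h1
  generalize (∑ u ∈ FW 1 W.b, W.om u) = T at hT0 h1 ⊢
  have h2 : (T ^ n) ^ (r + 1) / ((p ^ (W.b * n) : ℕ) : ℝ) ^ r ≤
      sZ p W (r + 1) n := le_trans h1 (Zb_le_sZ hodd 1 n (r + 1))
  have hp0 : (0 : ℝ) < p := by exact_mod_cast (up_prime hp).pos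
  have h3 := Real.log_le_log (by positivity) h2
  push_cast at h3
  rw [Real.log_div (by positivity) (by positivity), Real.log_pow, Real.log_pow, Real.log_pow,
    Real.log_pow] at h3
  push_cast at h3 ⊢
  linarith

lemma up_bdd (W : Alph p) (hp : p = 3 ∨ p = 5) (hq : 2 ≤ q) :
    BddBelow (Set.range fun n : ℕ => Real.log (sZ p W q n) / n) := by
  obtain ⟨K, hK⟩ : ∃ K : ℝ, K = q * Real.log (∑ u ∈ FW 1 W.b, W.om u) -
    (q - 1) * (W.b * Real.log p) := ⟨_, rfl⟩
  refine ⟨min 0 K, ?_⟩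
  rintro _ ⟨n, rfl⟩
  rcases Nat.eq_zero_or_pos n with rfl | hn
  · simp
  · have h := up_low W hp hq n
    rw [← hK] at h
    have hn' : (0 : ℝ) < n := by exact_mod_cast hn
    refine (min_le_right _ _).trans ?_
    show K ≤ Real.log (sZ p W q n) / n
    rw [le_div_iff₀ hn', mul_comm]
    exact h

/-- the exponential growth rate of the moments -/
theorem up_lim (W : Alph p) (hp : p = 3 ∨ p = 5) (hq : 2 ≤ q)
    (hTR : S_TR) (hGW : S_GW) (hLX : S_LX) (hLS : S_LS) (hLR : S_LR) (hGR : S_GR) :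
    (up_sub (q := q) W hp hq).lim ≤ W.b * Real.log p := by
  by_contra hcon
  push Not at hcon
  set u : ℕ → ℝ := fun n => Real.log (sZ p W q n) with hu
  set L : ℝ := (up_sub (q := q) W hp hq).lim with hL
  have hodd := up_odd hp
  have hprime := up_prime hp
  have hlogp := up_log hp
  have hb1 : (1 : ℝ) ≤ W.b := by exact_mod_cast W.hb
  have hb0 : (0 : ℝ) < W.b := by linarith
  set B : ℝ := W.b * Real.log p with hB
  set κ : ℝ := L / W.b - Real.log p with hκ
  have hκ0 : 0 < κ := by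
    rw [hκ, sub_pos, lt_div_iff₀ hb0]
    linarith
  have hBge : 1 ≤ B := by rw [hB]; nlinarith
  have hLpos : 1 < L := by linarith
  have hqr2 : (2 : ℝ) ≤ q := by exact_mod_cast hq
  have hq10 : (0 : ℝ) < q - 1 := by linarith
  obtain ⟨M, hM1, hM⟩ := hTR p hp W
  have hMr : (1 : ℝ) ≤ M := by exact_mod_cast hM1
  have hp0 : (0 : ℝ) < p := by exact_mod_cast hprime.pos
  set c : ℝ := (L - B) / (2 * M * W.b * (q - 1)) with hc
  have hc0 : 0 < c := by
    rw [hc]
    apply div_pos (by linarith) (by positivity)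
  have h120 : (L - B) / (q - 1) = 2 * (c * (W.b * M)) := by
    rw [hc]
    field_simp
  obtain ⟨ε₀, hε₀, hcore⟩ := core hprime hq hc0 hκ0
  have htend : Tendsto (fun n : ℕ => u n / n) atTop (𝓝 L) :=
    (up_sub (q := q) W hp hq).tendsto_lim (up_bdd W hp hq)
  have hLle : ∀ n : ℕ, n * L ≤ u n := by
    intro n
    rcases Nat.eq_zero_or_pos n with rfl | hn
    · have := up_low W hp hq 0
      simpa using this
    · have := (up_sub (q := q) W hp hq).lim_le_div (up_bdd W hp hq) hn.ne'
      have hn' : (0 : ℝ) < n := by exact_mod_cast hn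
      rw [le_div_iff₀ hn'] at this
      linarith
  have hev : ∀ d : ℝ, 0 < d → ∃ n₁ : ℕ, 1 ≤ n₁ ∧ ∀ n, n₁ ≤ n → u n ≤ (L + d) * n := by
    intro d hd
    have h1 : ∀ᶠ n : ℕ in atTop, u n / n < L + d := (tendsto_order.1 htend).2 _ (by linarith)
    obtain ⟨n₁, hn₁⟩ := eventually_atTop.1 h1
    refine ⟨max n₁ 1, le_max_right _ _, fun n hn => ?_⟩
    have hn1 : 1 ≤ n := le_trans (le_max_right _ _) hn
    have hn0 : (0 : ℝ) < n := by exact_mod_cast hn1
    have := hn₁ n (le_trans (le_max_left _ _) hn)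
    rw [div_lt_iff₀ hn0] at this
    exact this.le
  -- the window length
  obtain ⟨l₁, hl₁1, hl₁⟩ := hev (W.b * ε₀ / 8) (by positivity)
  obtain ⟨l₂, hl₂⟩ := exists_nat_ge (8 * q * Real.log p / ε₀)
  obtain ⟨l, hldef⟩ : ∃ l : ℕ, l = l₁ + l₂ := ⟨_, rfl⟩
  have hl1 : 1 ≤ l := by omega
  have hul : u l ≤ (L + W.b * ε₀ / 8) * l := hl₁ l (by omega)
  have hlr : (0 : ℝ) < l := by exact_mod_cast hl1
  have hl2 : 8 * q * Real.log p / ε₀ ≤ l := hl₂.trans (by exact_mod_cast (by omega : l₂ ≤ l))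
  have hbl1 : 1 ≤ W.b * l := Nat.mul_pos W.hb hl1
  obtain ⟨δ, hδ, m₀, hm⟩ := hcore (W.b * l) hbl1
  have hζ : ((W.b * l : ℕ) : ℝ) * (Real.log p + κ) ≤ u l := by
    have h1 := hLle l
    have h2 : ((W.b * l : ℕ) : ℝ) * (Real.log p + κ) = l * L := by
      rw [hκ]
      push_cast
      field_simp
      ring
    rw [h2]
    exact h1
  -- the small parameter
  set d : ℝ := min (c / 100) (min (δ / 100) (min (ε₀ / 100) (1 / M))) with hd
  have hd0 : 0 < d := by
    rw [hd]
    exact lt_min (by positivity) (lt_min (by positivity) (lt_min (by positivity) (by positivity)))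
  have hdc : d ≤ c / 100 := min_le_left _ _
  have hdδ : d ≤ δ / 100 := le_trans (min_le_right _ _) (min_le_left _ _)
  have hdε : d ≤ ε₀ / 100 :=
    le_trans (min_le_right _ _) (le_trans (min_le_right _ _) (min_le_left _ _))
  have hd1 : d ≤ 1 / M :=
    le_trans (min_le_right _ _) (le_trans (min_le_right _ _) (min_le_right _ _))
  have hdM : d * M ≤ 1 := by
    rwa [le_div_iff₀ (by positivity)] at hd1
  obtain ⟨n₁, hn₁, hev1⟩ := hev d hd0
  set K0 : ℝ := 4 * (q + 1) * Real.log 2 + c / 4 - 1 - Real.log (c / 4) with hK0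
  obtain ⟨k₁, hk₁⟩ := exists_nat_ge (|K0| / (c / 2))
  obtain ⟨k₂, hk₂⟩ := exists_nat_ge (4 * (q + 1) * Real.log 2 / (δ / 2))
  obtain ⟨k₃, hk₃⟩ := exists_nat_ge (4 * (q + 1) * Real.log 2 / (ε₀ / 8))
  obtain ⟨k₄, hk₄⟩ := exists_nat_ge (2 * q * l * Real.log p / (ε₀ / 8))
  set k : ℕ := n₁ + k₁ + k₂ + k₃ + k₄ + m₀ + l + q + 1 with hk
  have hk1 : 1 ≤ k := by omega
  have hkr : (1 : ℝ) ≤ k := by exact_mod_cast hk1
  have hkk₁ : (k₁ : ℝ) ≤ k := by exact_mod_cast (show k₁ ≤ k by omega)
  have hkk₂ : (k₂ : ℝ) ≤ k := by exact_mod_cast (show k₂ ≤ k by omega)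
  have hkk₃ : (k₃ : ℝ) ≤ k := by exact_mod_cast (show k₃ ≤ k by omega)
  have hkk₄ : (k₄ : ℝ) ≤ k := by exact_mod_cast (show k₄ ≤ k by omega)
  have hkq : ((q : ℝ) + 1) ≤ k := by exact_mod_cast (show q + 1 ≤ k by omega)
  have hkM : k ≤ M * k := Nat.le_mul_of_pos_left _ (by omega)
  have hkbM : M * k ≤ W.b * (M * k) := Nat.le_mul_of_pos_left _ W.hb
  have e1 : K0 ≤ c / 2 * k := by
    have h1 : |K0| / (c / 2) ≤ k := le_trans hk₁ hkk₁
    rw [div_le_iff₀ (by positivity)] at h1
    have := le_abs_self K0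
    linarith
  have e2 : 4 * (q + 1) * Real.log 2 ≤ δ / 2 * k := by
    have h1 : 4 * (q + 1) * Real.log 2 / (δ / 2) ≤ k := le_trans hk₂ hkk₂
    rw [div_le_iff₀ (by positivity)] at h1
    linarith
  have e3 : 4 * (q + 1) * Real.log 2 ≤ ε₀ / 8 * k := by
    have h1 := le_trans hk₃ hkk₃
    rw [div_le_iff₀ (by positivity)] at h1
    linarith
  have e4 : 2 * q * l * Real.log p ≤ ε₀ / 8 * k := by
    have h1 := le_trans hk₄ hkk₄
    rw [div_le_iff₀ (by positivity)] at h1
    linarith
  have hlog2 : 0 < Real.log 2 := Real.log_pos (by norm_num)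
  have hlog2' : Real.log 2 < 1 := by have := Real.log_two_lt_d9; linarith
  have huk : u k ≤ (L + d) * k := hev1 k (by omega)
  have hu60 : u (M * k) ≤ (L + d) * (M * k) := by
    have := hev1 (M * k) (by omega)
    push_cast at this
    exact this
  have hu61 : (k + M * k) * L ≤ u (k + M * k) := by
    have := hLle (k + M * k)
    push_cast at this
    linarith
  -- the cap
  obtain ⟨A, hA1, hA⟩ := exists_cap (W := W) hodd q (k + M * k)
  have hcap2 := hA A le_rfl
  have hZk := Zb_pos (W := W) hodd hA1 k q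
  have hZm := Zb_pos (W := W) hodd hA1 (M * k) q
  have hZn := Zb_pos (W := W) hodd hA1 (k + M * k) q
  have hlogZk : Real.log (Zb p W A k q) ≤ u k := Real.log_le_log hZk (Zb_le_sZ hodd A k q)
  have hlogZm : Real.log (Zb p W A (M * k) q) ≤ u (M * k) :=
    Real.log_le_log hZm (Zb_le_sZ hodd A (M * k) q)
  have hlogZn : u (k + M * k) - Real.log 2 ≤ Real.log (Zb p W A (k + M * k) q) := by
    have h1 := Real.log_le_log (sZ_pos hodd q (k + M * k)) hcap2
    rw [Real.log_mul (by norm_num) hZn.ne'] at h1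
    show Real.log (sZ p W q (k + M * k)) - Real.log 2 ≤ _
    linarith
  have hMk0 : (0 : ℝ) ≤ (M : ℝ) * k := by positivity
  have hkMk : (k : ℝ) ≤ M * k := by exact_mod_cast hkM
  have hMkb : (M : ℝ) * k ≤ W.b * (M * k) := by exact_mod_cast hkbM
  -- truncation
  have htr : 2 ^ q * Zb p W A (M * k) q ≤ 100 ^ k * Zb p W A (k + M * k) q := by
    have h100 : (4 : ℝ) ≤ Real.log 100 := by
      have h : Real.exp 4 ≤ 100 := by
        have h1 := Real.exp_one_lt_d9
        have h2 : Real.exp 4 = Real.exp 1 ^ 4 := by rw [← Real.exp_nat_mul]; norm_num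
        rw [h2]
        calc Real.exp 1 ^ 4 ≤ (2.7182818286 : ℝ) ^ 4 := pow_le_pow_left₀ (Real.exp_pos 1).le h1.le 4
          _ ≤ 100 := by norm_num
      rw [Real.le_log_iff_exp_le (by norm_num)]
      exact h
    have h1 : Real.log (2 ^ q * Zb p W A (M * k) q) ≤
        Real.log (100 ^ k * Zb p W A (k + M * k) q) := by
      rw [Real.log_mul (by positivity) hZm.ne', Real.log_mul (by positivity) hZn.ne',
        Real.log_pow, Real.log_pow]
      have h2 : (k : ℝ) * 4 ≤ k * Real.log 100 := mul_le_mul_of_nonneg_left h100 (by linarith)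
      have h3 : ((q : ℝ) + 1) * Real.log 2 ≤ k * 1 :=
        mul_le_mul hkq hlog2'.le hlog2.le (by linarith)
      have h4 : d * (M * k) ≤ 1 * k := by
        have := mul_le_mul_of_nonneg_right hdM (show (0 : ℝ) ≤ k by linarith)
        linarith
      have h5 : 0 ≤ (k : ℝ) * L := by nlinarith
      have h6 : (L + d) * (M * k) = L * (M * k) + d * (M * k) := by ring
      have h7 : ((k : ℝ) + M * k) * L = k * L + L * (M * k) := by ring
      linarith
    exact (Real.log_le_log_iff (by positivity) (by positivity)).1 h1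
  have hZG := hM q hq A k (M * k) htr
  have hG : 0 < ZG p W M A k (M * k) q := by
    have h2 : (0 : ℝ) < 2 ^ q := by positivity
    by_contra hneg
    push Not at hneg
    have := mul_nonpos_of_nonneg_of_nonpos h2.le hneg
    linarith
  have hlogG : Real.log (Zb p W A (k + M * k) q) - q * Real.log 2 ≤
      Real.log (ZG p W M A k (M * k) q) := by
    have h1 := Real.log_le_log hZn hZG
    rw [Real.log_mul (by positivity) hG.ne', Real.log_pow] at h1
    linarith
  set N : ℝ := (W.b : ℝ) * (M * k) with hN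
  have hN0 : 0 ≤ N := by rw [hN]; positivity
  have hkN : (k : ℝ) ≤ N := hkMk.trans hMkb
  set GEE : ℝ := GE p W M A k (M * k) q with hGE
  have hGEeq : GEE = Real.log (Zb p W A k q) + Real.log (Zb p W A (M * k) q)
      - Real.log (ZG p W M A k (M * k) q) := rfl
  have hdk : 0 ≤ d * k := by positivity
  have hdkM : d * k ≤ d * (M * k) := mul_le_mul_of_nonneg_left hkMk hd0.le
  have hdkN : d * (M * k) ≤ d * N := mul_le_mul_of_nonneg_left hMkb hd0.le
  have hGEle : GEE ≤ 2 * (d * N) + (q + 1) * Real.log 2 := by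
    rw [hGEeq]
    have h6 : (L + d) * (M * k) = L * (M * k) + d * (M * k) := by ring
    have h7 : ((k : ℝ) + M * k) * L = k * L + L * (M * k) := by ring
    have h8 : (L + d) * k = k * L + d * k := by ring
    linarith
  have hZk2 : k * L - d * (M * k) - Real.log 2 ≤ Real.log (Zb p W A k q) := by
    have h2 := Real.log_le_log hZn (Zb_sub hodd (q := q) (by omega) A k (M * k))
    rw [Real.log_mul hZk.ne' hZm.ne'] at h2
    have h6 : (L + d) * (M * k) = L * (M * k) + d * (M * k) := by ring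
    have h7 : ((k : ℝ) + M * k) * L = k * L + L * (M * k) := by ring
    linarith
  have hZm2 : L * (M * k) - d * k - Real.log 2 ≤ Real.log (Zb p W A (M * k) q) := by
    have h2 := Real.log_le_log hZn (Zb_sub hodd (q := q) (by omega) A k (M * k))
    rw [Real.log_mul hZk.ne' hZm.ne'] at h2
    have h7 : ((k : ℝ) + M * k) * L = k * L + L * (M * k) := by ring
    have h8 : (L + d) * k = k * L + d * k := by ring
    linarith
  -- apply core
  have hcast : (((W.b * (M * k) : ℕ)) : ℝ) = N := by rw [hN]; push_cast; ring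
  have hlM : l ≤ M * k := by omega
  obtain ⟨g1, g2, g3, g4⟩ := hGR p hp W M A k (M * k) l q hq hA1 hG
  obtain ⟨w1, w2⟩ := hGW p hp W M A k (M * k) q hq hG
  refine hm (W.b * (M * k)) (by omega) (u l) hζ (Gs p W M A k (M * k)) (Gw p W M A k (M * k) q)
    (Gγ p (W.b * k)) (GX p (W.b * k)) (GY p (W.b * k))
    (fun i g y => GR p W M A k (M * k) l i g y)
    w1 w2 g1 g2
    (fun i hi ω hω => g3 i hi _ _)
    (fun i hi ω hω => ?_) ?_ ?_ ?_
  · refine (g4 i hi _ _).trans ?_
    show _ ≤ Real.exp (Real.log (sZ p W q l))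
    rw [Real.exp_log (sZ_pos hodd q l)]
    exact Zb_le_sZ hodd A l q
  · refine le_trans ?_ (hLX p hp W M A k q hq hA1 hG)
    rw [hcast]
    have hX : 2 * (c * N) - d * (M * k) - Real.log 2 ≤
        (Real.log (Zb p W A k q) - k * B) / (q - 1) := by
      have h1 : k * ((L - B) / (q - 1)) = 2 * (c * N) := by rw [h120, hN]; ring
      rw [← h1, le_div_iff₀ hq10]
      have h8 : (k * ((L - B) / (q - 1)) - d * (M * k) - Real.log 2) * (q - 1) =
          k * (L - B) - (q - 1) * (d * (M * k) + Real.log 2) := by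
        field_simp
        ring
      rw [h8]
      have h9 : 0 ≤ d * (M * k) + Real.log 2 := by positivity
      have h10 : 1 * (d * (M * k) + Real.log 2) ≤ (q - 1) * (d * (M * k) + Real.log 2) :=
        mul_le_mul_of_nonneg_right (by linarith) h9
      linarith
    have hlogk : Real.log (M * (W.b * k) + 1) ≤ c / 4 * N + (c / 4 - 1 - Real.log (c / 4)) := by
      have e : (M : ℝ) * (W.b * k) = N := by rw [hN]; ring
      rw [e]
      have hx : (0 : ℝ) < N + 1 := by linarith
      have h1 := Real.log_le_sub_one_of_pos (mul_pos (show (0 : ℝ) < c / 4 by positivity) hx)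
      rw [Real.log_mul (by positivity) hx.ne'] at h1
      linarith
    have h3 : d * N ≤ c / 100 * N := mul_le_mul_of_nonneg_right hdc hN0
    have h4 : c / 2 * k ≤ c / 2 * N := mul_le_mul_of_nonneg_left hkN (by positivity)
    have h5 : 0 ≤ c * N := by positivity
    have h6 : Real.log 2 ≤ (q + 1) * Real.log 2 := by nlinarith
    show c * N ≤ (Real.log (Zb p W A k q) - k * B) / (q - 1) - 3 * GEE
      - Real.log (M * (W.b * k) + 1)
    linarith
  · refine le_trans (hLS p hp W M A k q hq hA1 hG) ?_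
    rw [hcast]
    show 4 * GEE ≤ δ * N
    have h3 : d * N ≤ δ / 100 * N := mul_le_mul_of_nonneg_right hdδ hN0
    have h4 : δ / 2 * k ≤ δ / 2 * N := mul_le_mul_of_nonneg_left hkN (by positivity)
    have h5 : 0 ≤ δ * N := by positivity
    linarith
  · intro r hr
    refine le_trans ?_ (hLR p hp W M A k (M * k) l q hq hA1 hl1 hlM hG r hr)
    rw [hcast]
    show u l / ((W.b * l : ℕ) : ℝ) * N - ε₀ * N ≤
      Real.log (Zb p W A (M * k) q) - 2 * GEE -
        q * ((2 * l + ((M * k : ℕ) : ℝ) / l) * (W.b * Real.log p))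
    have h1 : u l / ((W.b * l : ℕ) : ℝ) * N ≤ L * (M * k) + ε₀ / 8 * N := by
      have h2 : u l / ((W.b * l : ℕ) : ℝ) * N = u l / l * (M * k) := by
        rw [hN]
        push_cast
        field_simp
      rw [h2]
      have h3 : u l / l ≤ L + W.b * ε₀ / 8 := by rw [div_le_iff₀ hlr]; exact hul
      have h4 := mul_le_mul_of_nonneg_right h3 hMk0
      refine h4.trans (le_of_eq ?_)
      rw [hN]; ring
    have h3 : d * N ≤ ε₀ / 100 * N := mul_le_mul_of_nonneg_right hdε hN0
    have h4 : q * ((2 * l + ((M * k : ℕ) : ℝ) / l) * (W.b * Real.log p)) ≤ ε₀ / 4 * N := by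
      have e : q * ((2 * l + ((M * k : ℕ) : ℝ) / l) * (W.b * Real.log p)) =
          W.b * (2 * q * l * Real.log p) + (8 * q * Real.log p) / 8 * (N / l) := by
        rw [hN]
        push_cast
        field_simp
      rw [e]
      have h5 : (8 * q * Real.log p) ≤ ε₀ * l := by
        rw [div_le_iff₀ hε₀] at hl2
        linarith
      have h6 : (8 * q * Real.log p) / 8 * (N / l) ≤ ε₀ * l / 8 * (N / l) :=
        mul_le_mul_of_nonneg_right (by linarith) (by positivity)
      have h7 : ε₀ * l / 8 * (N / l) = ε₀ / 8 * N := by field_simp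
      have h8 : W.b * (2 * q * l * Real.log p) ≤ ε₀ / 8 * N := by
        have h9 := mul_le_mul_of_nonneg_left e4 hb0.le
        have h10 : (W.b : ℝ) * (ε₀ / 8 * k) ≤ ε₀ / 8 * N := by
          rw [hN]
          have : ε₀ / 8 * (W.b * k) ≤ ε₀ / 8 * (W.b * (M * k)) :=
            mul_le_mul_of_nonneg_left (mul_le_mul_of_nonneg_left hkMk hb0.le) (by positivity)
          linarith
        linarith
      linarith
    have h5 : 0 ≤ ε₀ * N := by positivity
    have h6 : ε₀ / 8 * k ≤ ε₀ / 8 * N := mul_le_mul_of_nonneg_left hkN (by positivity)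
    have h7 : Real.log 2 ≤ (q + 1) * Real.log 2 := by nlinarith
    linarith

end Up

/-- THE SUP LAW from the other parts -/
theorem t_UPH : S_UPH := by
  intro hTR hGW hLX hLS hLR hGR p hp W ε hε
  have hodd := up_odd hp
  have hprime := up_prime hp
  have hlogp := up_log hp
  have hb1 : (1 : ℝ) ≤ W.b := by exact_mod_cast W.hb
  set B : ℝ := W.b * Real.log p with hB
  have hB0 : 1 ≤ B := by rw [hB]; nlinarith
  -- choose `q`
  obtain ⟨q₀, hq₀⟩ := exists_nat_ge ((B + 1) / ε)
  obtain ⟨q, hq⟩ : ∃ q : ℕ, q = q₀ + 2 := ⟨_, rfl⟩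
  have hq2 : 2 ≤ q := by omega
  have hqr : (B + 1) / ε ≤ q := hq₀.trans (by exact_mod_cast (by omega : q₀ ≤ q))
  have hqr' : B + 1 ≤ q * ε := by rwa [div_le_iff₀ hε] at hqr
  have hq0 : (0 : ℝ) < q := by exact_mod_cast (by omega : 0 < q)
  have hlim := up_lim (q := q) W hp hq2 hTR hGW hLX hLS hLR hGR
  have h1 : ∀ᶠ n : ℕ in atTop, Real.log (sZ p W q n) / n < B + 1 :=
    (tendsto_order.1 ((up_sub (q := q) W hp hq2).tendsto_lim (up_bdd W hp hq2))).2 _
      (by linarith)
  obtain ⟨n₁, hn₁⟩ := eventually_atTop.1 h1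
  obtain ⟨n₀, hn₀⟩ : ∃ n₀ : ℕ, n₀ = max n₁ 1 := ⟨_, rfl⟩
  have hp1' : (1 : ℝ) ≤ (p : ℝ) ^ W.b := one_le_pow₀ (by exact_mod_cast hprime.one_le)
  have hC : (1 : ℝ) ≤ ((p : ℝ) ^ W.b) ^ n₀ := one_le_pow₀ hp1'
  refine ⟨((p : ℝ) ^ W.b) ^ n₀, by linarith, fun A n x => ?_⟩
  have hexp1 : 1 ≤ Real.exp (ε * n) := Real.one_le_exp (by positivity)
  rcases le_or_gt n₀ n with h | h
  · -- large `n`
    have hn1 : 1 ≤ n := le_trans (by omega) h
    have hnr : (0 : ℝ) < n := by exact_mod_cast hn1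
    have h2 := hn₁ n (by omega)
    rw [div_lt_iff₀ hnr] at h2
    -- reduce to a residue
    have hmod : ∃ y ∈ range (p ^ (W.b * n)), DB p W A n (y : ℤ) = DB p W A n x := by
      have hp0 : 0 < p := hprime.pos
      have hpos : (0 : ℤ) < (p : ℤ) ^ (W.b * n) := by positivity
      refine ⟨(x % (p : ℤ) ^ (W.b * n)).toNat, ?_, ?_⟩
      · rw [mem_range]
        have h2 := Int.emod_lt_of_pos x hpos
        have h3 := Int.emod_nonneg x hpos.ne'
        zify
        rw [Int.toNat_of_nonneg h3]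
        exact_mod_cast h2
      · rw [Int.toNat_of_nonneg (Int.emod_nonneg x hpos.ne')]
        have h2 := Int.emod_add_mul_ediv x ((p : ℤ) ^ (W.b * n))
        conv_rhs => rw [← h2]
        rw [DB_shift]
    obtain ⟨y, hy, hyx⟩ := hmod
    have h3 : DB p W A n (y : ℤ) ^ q ≤ Zb p W A n q :=
      single_le_sum (f := fun x : ℕ => DB p W A n (x : ℤ) ^ q)
        (fun x _ => pow_nonneg (DB_nonneg A n _) _) hy
    rw [hyx] at h3
    have hfin : DB p W A n x ≤ Real.exp (ε * n) := by
      rcases (DB_nonneg (W := W) A n x).lt_or_eq with h0 | h0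
      · have h4 := Real.log_le_log (by positivity) (h3.trans (Zb_le_sZ hodd A n q))
        rw [Real.log_pow] at h4
        rw [← Real.log_le_iff_le_exp h0]
        have hmul : q * Real.log (DB p W A n x) ≤ q * (ε * n) := by
          have h9 : (B + 1) * n ≤ q * ε * n := mul_le_mul_of_nonneg_right hqr' hnr.le
          linarith
        exact le_of_mul_le_mul_left hmul hq0
      · rw [← h0]
        exact (Real.exp_pos _).le
    refine hfin.trans ?_
    have := Real.exp_pos (ε * n)
    nlinarith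
  · refine (DB_le hodd A n x).trans ?_
    have h6 : ((p : ℝ) ^ W.b) ^ n ≤ ((p : ℝ) ^ W.b) ^ n₀ := pow_le_pow_right₀ hp1' h.le
    nlinarith

end Pool.Agent.N685.WB
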