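import Pool.Agent.N685.WB.Zsub
import Pool.Agent.N685.WB.Law
import Pool.Agent.N685.WB.LawR
import Pool.Agent.N685.WB.Upper

/-! Project WB: assembly. -/

set_option autoImplicit false

namespace Pool.Agent.N685.WB

theorem t_UP : S_UP := t_UPH t_TR t_GW t_LX t_LS (t_LR t_N6) t_GR

end Pool.Agent.N685.WB
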