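import Pool.Agent.N685.WB.Defs
import Pool.Agent.H377R2.NK.Zsub

/-! Basic properties of the martingale with block weights. -/

set_option autoImplicit false
set_option linter.unusedVariables false

namespace Pool.Agent.N685.WB

open Finset Pool.Agent.H320R2.PD Pool.Agent.H377R2.NK

section Basic

variable {p M : ℕ} {W : Alph p}

theorem append_eq {u v : List ℕ} {x : ℤ}
    (hu : (p : ℤ) ^ u.length ∣ 2 ^ u.sum * x - Wp p u) :
    (2 : ℤ) ^ (u ++ v).sum * x - Wp p (u ++ v) =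
      (p : ℤ) ^ u.length * (2 ^ v.sum * en p u x - Wp p v) := by
  have h1 : (p : ℤ) ^ u.length * en p u x = 2 ^ u.sum * x - Wp p u := by
    unfold en
    exact Int.mul_ediv_cancel' hu
  rw [Wp_append, List.sum_append, pow_add]
  push_cast
  have : (2 : ℤ) ^ u.sum * 2 ^ v.sum * x - (2 ^ v.sum * (Wp p u : ℤ) + (p : ℤ) ^ u.length * Wp p v) =
      2 ^ v.sum * (2 ^ u.sum * x - Wp p u) - (p : ℤ) ^ u.length * Wp p v := by ring
  rw [this, ← h1]
  ring

theorem valid_append_iff (hp : Odd p) {u v : List ℕ} {x : ℤ} :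
    ((p : ℤ) ^ (u ++ v).length ∣ 2 ^ (u ++ v).sum * x - Wp p (u ++ v)) ↔
    ((p : ℤ) ^ u.length ∣ 2 ^ u.sum * x - Wp p u) ∧
      ((p : ℤ) ^ v.length ∣ 2 ^ v.sum * en p u x - Wp p v) := by
  have hp0 : (p : ℤ) ≠ 0 := by
    have := hp.pos
    exact_mod_cast (by omega : p ≠ 0)
  constructor
  · intro h
    have hu : (p : ℤ) ^ u.length ∣ 2 ^ u.sum * x - Wp p u := by
      have h1 : (p : ℤ) ^ u.length ∣ 2 ^ (u ++ v).sum * x - Wp p (u ++ v) := by
        refine dvd_trans ?_ h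
        rw [List.length_append, pow_add]
        exact Dvd.intro _ rfl
      have h2 : (2 : ℤ) ^ (u ++ v).sum * x - Wp p (u ++ v) =
          2 ^ v.sum * (2 ^ u.sum * x - Wp p u) - (p : ℤ) ^ u.length * Wp p v := by
        rw [Wp_append, List.sum_append, pow_add]
        push_cast
        ring
      rw [h2] at h1
      have h3 : (p : ℤ) ^ u.length ∣ 2 ^ v.sum * (2 ^ u.sum * x - Wp p u) := by
        have := dvd_add h1 (Dvd.intro (Wp p v : ℤ) rfl : (p : ℤ) ^ u.length ∣ (p : ℤ) ^ u.length * Wp p v)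
        rwa [sub_add_cancel] at this
      have hcop : IsCoprime ((p : ℤ) ^ u.length) ((2 : ℤ) ^ v.sum) := by
        apply IsCoprime.pow
        rw [Int.isCoprime_iff_gcd_eq_one]
        have : Nat.Coprime p 2 := (Nat.coprime_two_right).2 hp
        exact_mod_cast this
      exact hcop.dvd_of_dvd_mul_left h3
    refine ⟨hu, ?_⟩
    rw [append_eq (v := v) hu, List.length_append, pow_add] at h
    exact (mul_dvd_mul_iff_left (pow_ne_zero _ hp0)).1 h
  · rintro ⟨hu, hv⟩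
    exact (en_append hp hu hv).1

theorem DB_zero (A : ℕ) (x : ℤ) : DB p W A 0 x = 1 := by
  have : VW p A (W.b * 0) x = {[]} := by
    ext w
    rw [mem_VW, Finset.mem_singleton]
    constructor
    · rintro ⟨h, _⟩; exact List.length_eq_zero_iff.1 (by simpa using h)
    · rintro rfl; simp
  unfold DB
  rw [this, sum_singleton, zw_nil]

theorem DB_nonneg (A n : ℕ) (x : ℤ) : 0 ≤ DB p W A n x := sum_nonneg (fun w _ => zw_nonneg _)

theorem DB_mono (n : ℕ) (x : ℤ) {A A' : ℕ} (h : A ≤ A') : DB p W A n x ≤ DB p W A' n x := by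
  unfold DB
  apply Finset.sum_le_sum_of_subset_of_nonneg
  · intro w hw
    rw [mem_VW] at hw ⊢
    exact ⟨hw.1, fun e he => ⟨(hw.2.1 e he).1, (hw.2.1 e he).2.trans h⟩, hw.2.2⟩
  · intro w _ _
    exact zw_nonneg _

theorem DB_shift (A n : ℕ) (x y : ℤ) :
    DB p W A n (x + (p : ℤ) ^ (W.b * n) * y) = DB p W A n x := by
  unfold DB
  rw [VW_shift]

/-- a shift by a multiple of a higher power -/
theorem DB_shift' {A n N : ℕ} (h : W.b * n ≤ N) (x y : ℤ) :
    DB p W A n (x + (p : ℤ) ^ N * y) = DB p W A n x := by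
  obtain ⟨c, rfl⟩ := Nat.exists_eq_add_of_le h
  rw [pow_add, mul_assoc, DB_shift]

/-- splitting after `k` blocks -/
theorem DB_add (hp : Odd p) (A k m : ℕ) (x : ℤ) :
    DB p W A (k + m) x = ∑ w ∈ VW p A (W.b * k) x, zw p W w * DB p W A m (en p w x) := by
  classical
  unfold DB VW
  rw [Finset.sum_filter, mul_add, sum_FW_add, Finset.sum_filter]
  apply Finset.sum_congr rfl
  intro u hu
  rw [mem_FW] at hu
  by_cases h : (p : ℤ) ^ (W.b * k) ∣ 2 ^ u.sum * x - Wp p u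
  · rw [if_pos h, Finset.mul_sum, Finset.sum_filter]
    apply Finset.sum_congr rfl
    intro v hv
    rw [mem_FW] at hv
    have hiff := valid_append_iff hp (u := u) (v := v) (x := x)
    rw [List.length_append, hu.1, hv.1] at hiff
    by_cases h2 : (p : ℤ) ^ (W.b * m) ∣ 2 ^ v.sum * en p u x - Wp p v
    · rw [if_pos (hiff.2 ⟨h, h2⟩), if_pos h2, zw_append hu.1 hv.1]
    · rw [if_neg (fun hh => h2 (hiff.1 hh).2), if_neg h2]
  · rw [if_neg h]
    apply Finset.sum_eq_zero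
    intro v hv
    rw [mem_FW] at hv
    have hiff := valid_append_iff hp (u := u) (v := v) (x := x)
    rw [List.length_append, hu.1, hv.1] at hiff
    rw [if_neg (fun hh => h (hiff.1 hh).1)]

theorem DB_one_le (A : ℕ) (x : ℤ) : DB p W A 1 x ≤ (p : ℝ) ^ W.b := by
  classical
  have h1 : DB p W A 1 x ≤ ∑ w ∈ FW A (W.b * 1), zw p W w := by
    unfold DB VW
    exact Finset.sum_le_sum_of_subset_of_nonneg (Finset.filter_subset _ _)
      (fun w _ _ => zw_nonneg _)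
  have h2 := sum_zw_le (W := W) A 1
  rw [mul_one] at h1 h2
  exact h1.trans h2

theorem DB_succ_le (hp : Odd p) (A n : ℕ) (x : ℤ) :
    DB p W A (n + 1) x ≤ (p : ℝ) ^ W.b * DB p W A n x := by
  rw [DB_add hp]
  have : (p : ℝ) ^ W.b * DB p W A n x = ∑ w ∈ VW p A (W.b * n) x, zw p W w * (p : ℝ) ^ W.b := by
    unfold DB
    rw [Finset.mul_sum]
    exact Finset.sum_congr rfl (fun w _ => mul_comm _ _)
  rw [this]
  apply Finset.sum_le_sum
  intro w _
  exact mul_le_mul_of_nonneg_left (DB_one_le A _) (zw_nonneg _)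

theorem DB_add_le (hp : Odd p) (A i j : ℕ) (x : ℤ) :
    DB p W A (i + j) x ≤ ((p : ℝ) ^ W.b) ^ j * DB p W A i x := by
  induction j with
  | zero => simp
  | succ j ih =>
    have h1 := DB_succ_le (W := W) hp A (i + j) x
    have h2 : (p : ℝ) ^ W.b * DB p W A (i + j) x ≤
        (p : ℝ) ^ W.b * (((p : ℝ) ^ W.b) ^ j * DB p W A i x) :=
      mul_le_mul_of_nonneg_left ih (by positivity)
    calc DB p W A (i + (j + 1)) x = DB p W A (i + j + 1) x := by rw [Nat.add_assoc]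
      _ ≤ (p : ℝ) ^ W.b * DB p W A (i + j) x := h1
      _ ≤ (p : ℝ) ^ W.b * (((p : ℝ) ^ W.b) ^ j * DB p W A i x) := h2
      _ = ((p : ℝ) ^ W.b) ^ (j + 1) * DB p W A i x := by ring

theorem DB_le (hp : Odd p) (A n : ℕ) (x : ℤ) : DB p W A n x ≤ ((p : ℝ) ^ W.b) ^ n := by
  have h := DB_add_le (W := W) hp A 0 n x
  rw [DB_zero, mul_one, Nat.zero_add] at h
  exact h

/-- total mass -/
theorem DB_total_eq (hp : Odd p) (A n : ℕ) :
    ∑ x ∈ range (p ^ (W.b * n)), DB p W A n (x : ℤ) = ∑ w ∈ FW A (W.b * n), zw p W w := by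
  classical
  have e1 : ∀ x : ℕ, DB p W A n (x : ℤ) = ∑ w ∈ FW A (W.b * n),
      (zw p W w * if (p : ℤ) ^ (W.b * n) ∣ 2 ^ w.sum * (x : ℤ) - Wp p w then (1 : ℝ) else 0) := by
    intro x
    unfold DB VW
    rw [sum_filter]
    refine sum_congr rfl fun w _ => ?_
    split_ifs <;> simp
  simp only [e1]
  rw [sum_comm]
  refine sum_congr rfl fun w _ => ?_
  rw [← mul_sum, U4_count hp, mul_one]

theorem DB_total_le (hp : Odd p) (A n : ℕ) :
    ∑ x ∈ range (p ^ (W.b * n)), DB p W A n (x : ℤ) ≤ (p : ℝ) ^ (W.b * n) := by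
  rw [DB_total_eq hp]
  exact sum_zw_le A n

theorem U4_DB_eq (hp : Odd p) (A i l : ℕ) (x : ℤ) (v : ℤ) :
    DB p W A (i + l) (x + (p : ℤ) ^ (W.b * i) * v) =
      ∑ w ∈ VW p A (W.b * i) x, zw p W w * DB p W A l (en p w x + 2 ^ w.sum * v) := by
  rw [DB_add hp, VW_shift]
  refine sum_congr rfl fun w hw => ?_
  have hl : w.length = W.b * i := (mem_VW.1 hw).1
  have h := en_shift (U4_one_le hp) (w := w) x v
  rw [hl] at h
  rw [h]

theorem U4_sum_aff (hp : Odd p) (A l s : ℕ) (c : ℤ) (F : ℝ → ℝ) :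
    ∑ v ∈ range (p ^ (W.b * l)), F (DB p W A l (c + 2 ^ s * (v : ℤ))) =
      ∑ v ∈ range (p ^ (W.b * l)), F (DB p W A l (v : ℤ)) :=
  sum_affine (U4_one_le hp) (W.b * l) (2 ^ s) c (U4_coprime hp s)
    (h := fun x => F (DB p W A l x)) (fun x y => by simp only [DB_shift])

theorem DB_lift (hp : Odd p) (A i l : ℕ) (x : ℤ) :
    ∑ v ∈ range (p ^ (W.b * l)), DB p W A (i + l) (x + (p : ℤ) ^ (W.b * i) * v) ≤
      (p : ℝ) ^ (W.b * l) * DB p W A i x := by
  simp only [U4_DB_eq hp]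
  rw [sum_comm]
  have h1 : ∀ w ∈ VW p A (W.b * i) x, ∑ v ∈ range (p ^ (W.b * l)),
      zw p W w * DB p W A l (en p w x + 2 ^ w.sum * (v : ℤ)) ≤
        (p : ℝ) ^ (W.b * l) * zw p W w := by
    intro w _
    rw [← mul_sum, mul_comm]
    apply mul_le_mul_of_nonneg_right _ (zw_nonneg _)
    have h := U4_sum_aff (W := W) hp A l w.sum (en p w x) (fun y => y)
    rw [h]
    exact DB_total_le hp A l
  refine (sum_le_sum h1).trans ?_
  rw [← mul_sum]
  rfl

theorem Zb_nonneg (A n q : ℕ) : 0 ≤ Zb p W A n q :=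
  sum_nonneg fun x _ => pow_nonneg (DB_nonneg A n x) q

theorem DB_lift_pow (hp : Odd p) {q : ℕ} (hq : 1 ≤ q) (A i l : ℕ) (x : ℤ) :
    ∑ v ∈ range (p ^ (W.b * l)), DB p W A (i + l) (x + (p : ℤ) ^ (W.b * i) * v) ^ q
      ≤ DB p W A i x ^ q * Zb p W A l q := by
  simp only [U4_DB_eq hp]
  have h := U4_mink (VW p A (W.b * i) x) (range (p ^ (W.b * l))) (fun w => zw p W w) (fun _ => 1)
    (fun w v => DB p W A l (en p w x + 2 ^ w.sum * (v : ℤ))) (Zb p W A l q)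
    (fun w _ => zw_nonneg _) (fun _ _ => zero_le_one)
    (fun w _ v _ => DB_nonneg A l _) hq
    (fun w _ => by
      rw [one_pow, one_mul]
      exact (U4_sum_aff hp A l w.sum (en p w x) (fun y => y ^ q)).le) (Zb_nonneg A l q)
  simp only [mul_one] at h
  exact h

theorem Zb_sub (hp : Odd p) {q : ℕ} (hq : 1 ≤ q) (A k m : ℕ) :
    Zb p W A (k + m) q ≤ Zb p W A k q * Zb p W A m q := by
  have e1 : Zb p W A (k + m) q = ∑ x ∈ range (p ^ (W.b * k)), ∑ v ∈ range (p ^ (W.b * m)),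
      DB p W A (k + m) ((x : ℤ) + (p : ℤ) ^ (W.b * k) * (v : ℤ)) ^ q := by
    unfold Zb
    rw [mul_add, pow_add, U4_split]
    refine sum_congr rfl fun x _ => sum_congr rfl fun v _ => ?_
    push_cast
    rfl
  rw [e1]
  calc _ ≤ ∑ x ∈ range (p ^ (W.b * k)), DB p W A k (x : ℤ) ^ q * Zb p W A m q :=
        sum_le_sum fun x _ => DB_lift_pow hp hq A k m x
    _ = Zb p W A k q * Zb p W A m q := by rw [← sum_mul]; rfl

theorem Zb_pos (hp : Odd p) {A : ℕ} (hA : 1 ≤ A) (n q : ℕ) : 0 < Zb p W A n q := by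
  have htot := sum_zw_pos (W := W) hA n
  rw [← DB_total_eq hp A n] at htot
  have hex : ∃ x ∈ range (p ^ (W.b * n)), 0 < DB p W A n (x : ℤ) := by
    by_contra hcon
    push Not at hcon
    exact absurd (sum_nonpos hcon) (not_le.2 htot)
  obtain ⟨x, hx, hx0⟩ := hex
  exact sum_pos' (fun y _ => pow_nonneg (DB_nonneg A n _) q) ⟨x, hx, pow_pos hx0 q⟩

/-! truncated martingale -/

theorem mem_VS {A k : ℕ} {x : ℤ} {w : List ℕ} : w ∈ VS p W M A k x ↔
    w ∈ VW p A (W.b * k) x ∧ w.sum ≤ M * (W.b * k) := by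
  unfold VS
  rw [mem_filter]

theorem len_VS {A k : ℕ} {x : ℤ} {w : List ℕ} (h : w ∈ VS p W M A k x) : w.length = W.b * k :=
  (mem_VW.1 (mem_VS.1 h).1).1

theorem VS_shift (A k : ℕ) (x y : ℤ) :
    VS p W M A k (x + (p : ℤ) ^ (W.b * k) * y) = VS p W M A k x := by
  unfold VS
  rw [VW_shift]

theorem GG_nonneg (A k i : ℕ) (x : ℤ) : 0 ≤ GG p W M A k i x :=
  sum_nonneg fun w _ => mul_nonneg (zw_nonneg _) (DB_nonneg A i _)

theorem GG_le (hp : Odd p) (A k i : ℕ) (x : ℤ) : GG p W M A k i x ≤ DB p W A (k + i) x := by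
  rw [DB_add hp]
  unfold GG VS
  refine sum_le_sum_of_subset_of_nonneg (filter_subset _ _) fun w _ _ => ?_
  exact mul_nonneg (zw_nonneg _) (DB_nonneg A i _)

theorem U4_GG_eq (hp : Odd p) (A k i : ℕ) (x v : ℤ) :
    GG p W M A k i (x + (p : ℤ) ^ (W.b * k) * v) =
      ∑ w ∈ VS p W M A k x, zw p W w * DB p W A i (en p w x + 2 ^ w.sum * v) := by
  unfold GG
  rw [VS_shift]
  refine sum_congr rfl fun w hw => ?_
  have h := en_shift (U4_one_le hp) (w := w) x v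
  rw [len_VS hw] at h
  rw [h]

/-- shifts by multiples of a high power -/
theorem GG_shift' (hp : Odd p) {A k i N : ℕ} (h : W.b * (k + i) ≤ N) (x y : ℤ) :
    GG p W M A k i (x + (p : ℤ) ^ N * y) = GG p W M A k i x := by
  obtain ⟨c, rfl⟩ := Nat.exists_eq_add_of_le h
  have e : x + (p : ℤ) ^ (W.b * (k + i) + c) * y =
      x + (p : ℤ) ^ (W.b * k) * ((p : ℤ) ^ (W.b * i) * ((p : ℤ) ^ c * y)) := by
    rw [mul_add W.b k i, pow_add, pow_add]; ring
  rw [e, U4_GG_eq hp]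
  refine sum_congr rfl fun w _ => ?_
  have e2 : en p w x + 2 ^ w.sum * ((p : ℤ) ^ (W.b * i) * ((p : ℤ) ^ c * y)) =
      en p w x + (p : ℤ) ^ (W.b * i) * (2 ^ w.sum * ((p : ℤ) ^ c * y)) := by ring
  rw [e2, DB_shift]

theorem GG_shift (hp : Odd p) (A k i : ℕ) (x y : ℤ) :
    GG p W M A k i (x + (p : ℤ) ^ (W.b * (k + i)) * y) = GG p W M A k i x :=
  GG_shift' hp le_rfl x y

theorem GG_succ_le (hp : Odd p) (A k i : ℕ) (x : ℤ) :
    GG p W M A k (i + 1) x ≤ (p : ℝ) ^ W.b * GG p W M A k i x := by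
  unfold GG
  rw [mul_sum]
  refine sum_le_sum fun w _ => ?_
  calc zw p W w * DB p W A (i + 1) (en p w x)
      ≤ zw p W w * ((p : ℝ) ^ W.b * DB p W A i (en p w x)) :=
        mul_le_mul_of_nonneg_left (DB_succ_le hp A i _) (zw_nonneg _)
    _ = (p : ℝ) ^ W.b * (zw p W w * DB p W A i (en p w x)) := by ring

theorem GG_add_le (hp : Odd p) (A k i j : ℕ) (x : ℤ) :
    GG p W M A k (i + j) x ≤ ((p : ℝ) ^ W.b) ^ j * GG p W M A k i x := by
  induction j with
  | zero => simp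
  | succ j ih =>
    have h1 := GG_succ_le (W := W) (M := M) hp A k (i + j) x
    have h2 : (p : ℝ) ^ W.b * GG p W M A k (i + j) x ≤
        (p : ℝ) ^ W.b * (((p : ℝ) ^ W.b) ^ j * GG p W M A k i x) :=
      mul_le_mul_of_nonneg_left ih (by positivity)
    calc GG p W M A k (i + (j + 1)) x = GG p W M A k (i + j + 1) x := by rw [Nat.add_assoc]
      _ ≤ (p : ℝ) ^ W.b * GG p W M A k (i + j) x := h1
      _ ≤ (p : ℝ) ^ W.b * (((p : ℝ) ^ W.b) ^ j * GG p W M A k i x) := h2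
      _ = ((p : ℝ) ^ W.b) ^ (j + 1) * GG p W M A k i x := by ring

theorem U4_inner (hp : Odd p) (A i l s : ℕ) (e : ℤ) (F : ℝ → ℝ) :
    ∑ v ∈ range (p ^ (W.b * l)),
        F (DB p W A (i + l) (e + 2 ^ s * ((p : ℤ) ^ (W.b * i) * (v : ℤ)))) =
      ∑ v ∈ range (p ^ (W.b * l)), F (DB p W A (i + l) (e + (p : ℤ) ^ (W.b * i) * (v : ℤ))) := by
  have h := sum_affine (U4_one_le hp) (W.b * l) (2 ^ s) 0 (U4_coprime hp s)
    (h := fun v => F (DB p W A (i + l) (e + (p : ℤ) ^ (W.b * i) * v))) (fun x y => by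
      have : e + (p : ℤ) ^ (W.b * i) * (x + (p : ℤ) ^ (W.b * l) * y) =
        (e + (p : ℤ) ^ (W.b * i) * x) + (p : ℤ) ^ (W.b * (i + l)) * y := by
        rw [mul_add W.b i l, pow_add]; ring
      simp only [this, DB_shift])
  rw [← h]
  refine sum_congr rfl fun v _ => ?_
  have : e + 2 ^ s * ((p : ℤ) ^ (W.b * i) * (v : ℤ)) =
      e + (p : ℤ) ^ (W.b * i) * (0 + 2 ^ s * (v : ℤ)) := by ring
  simp only [this]

theorem U4_GG_eq' (hp : Odd p) (A k i l : ℕ) (x v : ℤ) :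
    GG p W M A k (i + l) (x + (p : ℤ) ^ (W.b * (k + i)) * v) =
      ∑ w ∈ VS p W M A k x, zw p W w *
        DB p W A (i + l) (en p w x + 2 ^ w.sum * ((p : ℤ) ^ (W.b * i) * v)) := by
  have e : x + (p : ℤ) ^ (W.b * (k + i)) * v =
      x + (p : ℤ) ^ (W.b * k) * ((p : ℤ) ^ (W.b * i) * v) := by
    rw [mul_add W.b k i, pow_add]; ring
  rw [e, U4_GG_eq hp]

theorem GG_lift (hp : Odd p) (A k i l : ℕ) (x : ℤ) :
    ∑ v ∈ range (p ^ (W.b * l)), GG p W M A k (i + l) (x + (p : ℤ) ^ (W.b * (k + i)) * v)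
      ≤ (p : ℝ) ^ (W.b * l) * GG p W M A k i x := by
  simp only [U4_GG_eq' hp]
  rw [sum_comm]
  unfold GG
  rw [mul_sum]
  refine sum_le_sum fun w _ => ?_
  rw [← mul_sum]
  have h := U4_inner (W := W) hp A i l w.sum (en p w x) (fun y => y)
  rw [h]
  calc zw p W w * ∑ v ∈ range (p ^ (W.b * l)),
        DB p W A (i + l) (en p w x + (p : ℤ) ^ (W.b * i) * (v : ℤ))
      ≤ zw p W w * ((p : ℝ) ^ (W.b * l) * DB p W A i (en p w x)) :=
        mul_le_mul_of_nonneg_left (DB_lift hp A i l _) (zw_nonneg _)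
    _ = _ := by ring

theorem GG_lift_pow (hp : Odd p) {q : ℕ} (hq : 1 ≤ q) (A k i l : ℕ) (x : ℤ) :
    ∑ v ∈ range (p ^ (W.b * l)), GG p W M A k (i + l) (x + (p : ℤ) ^ (W.b * (k + i)) * v) ^ q
      ≤ GG p W M A k i x ^ q * Zb p W A l q := by
  simp only [U4_GG_eq' hp]
  have h := U4_mink (VS p W M A k x) (range (p ^ (W.b * l))) (fun w => zw p W w)
    (fun w => DB p W A i (en p w x))
    (fun w v => DB p W A (i + l) (en p w x + 2 ^ w.sum * ((p : ℤ) ^ (W.b * i) * (v : ℤ))))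
    (Zb p W A l q)
    (fun w _ => zw_nonneg _) (fun w _ => DB_nonneg A i _)
    (fun w _ v _ => DB_nonneg A (i + l) _) hq
    (fun w _ => by
      have h1 := U4_inner (W := W) hp A i l w.sum (en p w x) (fun y => y ^ q)
      rw [h1]
      exact DB_lift_pow hp hq A i l _) (Zb_nonneg A l q)
  exact h

/-! supremum over the cap -/

theorem Zb_le (hp : Odd p) (A n q : ℕ) : Zb p W A n q ≤ (p : ℝ) ^ (W.b * n * (q + 1)) := by
  unfold Zb
  calc ∑ x ∈ range (p ^ (W.b * n)), DB p W A n (x : ℤ) ^ q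
      ≤ ∑ x ∈ range (p ^ (W.b * n)), ((p : ℝ) ^ (W.b * n)) ^ q := by
        apply Finset.sum_le_sum
        intro x _
        refine pow_le_pow_left₀ (DB_nonneg A n _) ?_ q
        have := DB_le (W := W) hp A n (x : ℤ)
        rwa [← pow_mul] at this
    _ = (p : ℝ) ^ (W.b * n * (q + 1)) := by
        rw [Finset.sum_const, Finset.card_range, nsmul_eq_mul]
        push_cast
        rw [← pow_mul, ← pow_add]
        congr 1
        ring

theorem Zb_bdd (hp : Odd p) (n q : ℕ) : BddAbove (Set.range fun A : ℕ => Zb p W A n q) :=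
  ⟨(p : ℝ) ^ (W.b * n * (q + 1)), by
    rintro _ ⟨A, rfl⟩
    exact Zb_le hp A n q⟩

theorem Zb_le_sZ (hp : Odd p) (A n q : ℕ) : Zb p W A n q ≤ sZ p W q n := by
  unfold sZ
  exact le_ciSup (Zb_bdd hp n q) A

theorem sZ_pos (hp : Odd p) (q n : ℕ) : 0 < sZ p W q n :=
  lt_of_lt_of_le (Zb_pos hp (le_refl 1) n q) (Zb_le_sZ hp 1 n q)

theorem sZ_nonneg (hp : Odd p) (q n : ℕ) : 0 ≤ sZ p W q n := (sZ_pos hp q n).le

theorem sZ_sub (hp : Odd p) {q : ℕ} (hq : 1 ≤ q) (k m : ℕ) :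
    sZ p W q (k + m) ≤ sZ p W q k * sZ p W q m := by
  have h : sZ p W q (k + m) = ⨆ A : ℕ, Zb p W A (k + m) q := rfl
  rw [h]
  apply ciSup_le
  intro A
  refine (Zb_sub hp hq A k m).trans ?_
  exact mul_le_mul (Zb_le_sZ hp A k q) (Zb_le_sZ hp A m q) (Zb_nonneg _ _ _) (sZ_nonneg hp q k)

theorem Zb_mono {A A' : ℕ} (h : A ≤ A') (n q : ℕ) : Zb p W A n q ≤ Zb p W A' n q :=
  Finset.sum_le_sum fun _ _ => pow_le_pow_left₀ (DB_nonneg _ _ _) (DB_mono _ _ h) _

/-- for all large caps the moment is almost maximal -/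
theorem exists_cap (hp : Odd p) (q n : ℕ) :
    ∃ A₀ : ℕ, 1 ≤ A₀ ∧ ∀ A, A₀ ≤ A → sZ p W q n ≤ 2 * Zb p W A n q := by
  have hs := sZ_pos (W := W) hp q n
  obtain ⟨A₂, hA₂⟩ := exists_lt_of_lt_ciSup (show sZ p W q n / 2 < ⨆ A : ℕ, Zb p W A n q by
    have : sZ p W q n = ⨆ A : ℕ, Zb p W A n q := rfl
    rw [← this]
    linarith)
  refine ⟨max 1 A₂, le_max_left _ _, fun A hA => ?_⟩
  have := Zb_mono (p := p) (W := W) ((le_max_right _ _).trans hA) n q
  linarith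

end Basic

end Pool.Agent.N685.WB
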