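import Pool.Agent.H377R2.NK.Basic2

/-!
Inverse trees of the `3x+1` map with weights which are products of weights of the consecutive blocks of
`b` letters (project FT, helper685): definitions.  The letters are not bounded: all estimates are
uniform in the cap `A` of the letters.
(Compare `Pool/Agent/Y966/NQ/Defs.lean`, `Pool/Agent/Y966/UB/Defs.lean`.)
-/

set_option autoImplicit false
set_option linter.unusedVariables false

namespace Pool.Agent.N685.WB

open Finset Pool.Agent.H320R2.PD Pool.Agent.H377R2.NK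

/-- weights `om u ≤ 1` of the blocks `u` of `b` letters, of total mass at most `p^b`, dominated by
`th^b z^{sum u}` with `z < 1` -/
structure Alph (p : ℕ) where
  b : ℕ
  om : List ℕ → ℝ
  th : ℝ
  z : ℝ
  hb : 1 ≤ b
  hth : 0 < th
  hz : 0 < z
  hz1 : z < 1
  pos : ∀ u, 0 < om u
  le1 : ∀ u, om u ≤ 1
  dom : ∀ u : List ℕ, u.length = b → om u ≤ th ^ b * z ^ u.sum
  tot : ∀ A : ℕ, ∑ u ∈ FW A b, om u ≤ (p : ℝ) ^ b

/-- the weight of a word, the first `n` blocks -/
noncomputable def zwn {p : ℕ} (W : Alph p) : ℕ → List ℕ → ℝ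
  | 0, _ => 1
  | n + 1, w => W.om (w.take W.b) * zwn W n (w.drop W.b)

/-- the weight of a word -/
noncomputable def zw (p : ℕ) (W : Alph p) (w : List ℕ) : ℝ := zwn W (w.length / W.b) w

/-- the martingale (`n` blocks, letters at most `A`) -/
noncomputable def DB (p : ℕ) (W : Alph p) (A n : ℕ) (x : ℤ) : ℝ :=
  ∑ w ∈ VW p A (W.b * n) x, zw p W w

/-- moment of order `q` -/
noncomputable def Zb (p : ℕ) (W : Alph p) (A n q : ℕ) : ℝ :=
  ∑ x ∈ range (p ^ (W.b * n)), DB p W A n (x : ℤ) ^ q

/-- supremum over the letter cap -/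
noncomputable def sZ (p : ℕ) (W : Alph p) (q n : ℕ) : ℝ := ⨆ A : ℕ, Zb p W A n q

/-- admissible words of `k` blocks: valid and of size at most `M b k` -/
noncomputable def VS (p : ℕ) (W : Alph p) (M A k : ℕ) (x : ℤ) : Finset (List ℕ) :=
  (VW p A (W.b * k) x).filter fun w => w.sum ≤ M * (W.b * k)

/-- truncated martingale: the first `k` blocks are admissible, then `i` more blocks -/
noncomputable def GG (p : ℕ) (W : Alph p) (M A k i : ℕ) (x : ℤ) : ℝ :=
  ∑ w ∈ VS p W M A k x, zw p W w * DB p W A i (en p w x)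

/-- the truncated moment -/
noncomputable def ZG (p : ℕ) (W : Alph p) (M A k m q : ℕ) : ℝ :=
  ∑ x ∈ range (p ^ (W.b * (k + m))), GG p W M A k m (x : ℤ) ^ q

open scoped Classical in
/-- the underlying set of the Gibbs law -/
noncomputable def Gs (p : ℕ) (W : Alph p) (M A k m : ℕ) : Finset (ℕ × List ℕ) :=
  (range (p ^ (W.b * (k + m))) ×ˢ FW A (W.b * k)).filter fun ω => ω.2 ∈ VS p W M A k (ω.1 : ℤ)

/-- the Gibbs law -/
noncomputable def Gw (p : ℕ) (W : Alph p) (M A k m q : ℕ) (ω : ℕ × List ℕ) : ℝ :=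
  GG p W M A k m (ω.1 : ℤ) ^ (q - 1) * (zw p W ω.2 * DB p W A m (en p ω.2 (ω.1 : ℤ))) /
    ZG p W M A k m q

/-- ratios of the truncated martingale along windows of `W.b * l` digits -/
noncomputable def GR (p : ℕ) (W : Alph p) (M A k m l : ℕ) (i : ℕ) (g : ℕ × ℕ) (y : ℤ) : ℝ :=
  GG p W M A k (i / W.b + l) (Gr p (W.b * k) (W.b * m) g y) /
    ((p : ℝ) ^ W.b * GG p W M A k (i / W.b) (Gr p (W.b * k) (W.b * m) g y))

/-- the entropy defect of the Gibbs law -/
noncomputable def GE (p : ℕ) (W : Alph p) (M A k m q : ℕ) : ℝ :=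
  Real.log (Zb p W A k q) + Real.log (Zb p W A m q) - Real.log (ZG p W M A k m q)

section

variable {p : ℕ} {W : Alph p}

theorem zwn_pos (n : ℕ) (w : List ℕ) : 0 < zwn W n w := by
  induction n generalizing w with
  | zero => exact one_pos
  | succ n ih => exact mul_pos (W.pos _) (ih _)

theorem zwn_le_one (n : ℕ) (w : List ℕ) : zwn W n w ≤ 1 := by
  induction n generalizing w with
  | zero => exact le_rfl
  | succ n ih => exact mul_le_one₀ (W.le1 _) (zwn_pos _ _).le (ih _)

theorem zw_pos (w : List ℕ) : 0 < zw p W w := zwn_pos _ _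

theorem zw_nonneg (w : List ℕ) : 0 ≤ zw p W w := (zw_pos w).le

theorem zw_le_one (w : List ℕ) : zw p W w ≤ 1 := zwn_le_one _ _

theorem zw_nil : zw p W [] = 1 := by
  unfold zw
  simp [zwn]

theorem zwn_append (k m : ℕ) {u v : List ℕ} (hu : u.length = W.b * k) :
    zwn W (k + m) (u ++ v) = zwn W k u * zwn W m v := by
  induction k generalizing u with
  | zero =>
    have : u = [] := List.length_eq_zero_iff.1 (by simpa using hu)
    subst this
    simp [zwn]
  | succ k ih =>
    have e : k + 1 + m = (k + m) + 1 := by ring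
    have hl : W.b ≤ u.length := by rw [hu, mul_add]; omega
    rw [e]
    show W.om ((u ++ v).take W.b) * zwn W (k + m) ((u ++ v).drop W.b) =
      W.om (u.take W.b) * zwn W k (u.drop W.b) * zwn W m v
    rw [List.take_append_of_le_length hl, List.drop_append_of_le_length hl, ih, mul_assoc]
    rw [List.length_drop, hu, mul_add]
    omega

theorem zw_of_length {n : ℕ} {w : List ℕ} (hw : w.length = W.b * n) : zw p W w = zwn W n w := by
  unfold zw
  rw [hw, Nat.mul_div_cancel_left _ W.hb]

/-- multiplicativity on aligned words -/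
theorem zw_append {k m : ℕ} {u v : List ℕ} (hu : u.length = W.b * k) (hv : v.length = W.b * m) :
    zw p W (u ++ v) = zw p W u * zw p W v := by
  rw [zw_of_length (n := k + m) (by rw [List.length_append, hu, hv]; ring), zw_of_length hu,
    zw_of_length hv, zwn_append k m hu]

theorem zw_block {u : List ℕ} (hu : u.length = W.b) : zw p W u = W.om u := by
  rw [zw_of_length (n := 1) (by rw [hu, mul_one])]
  show W.om (u.take W.b) * 1 = W.om u
  rw [mul_one, List.take_of_length_le hu.le]

/-- domination by the product weight -/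
theorem zw_dom {n : ℕ} {w : List ℕ} (hw : w.length = W.b * n) :
    zw p W w ≤ W.th ^ (W.b * n) * W.z ^ w.sum := by
  rw [zw_of_length hw]
  have h1 := W.hth
  have h2 := W.hz
  induction n generalizing w with
  | zero =>
    have : w = [] := List.length_eq_zero_iff.1 (by simpa using hw)
    subst this
    simp [zwn]
  | succ n ih =>
    have hl : W.b ≤ w.length := by rw [hw, mul_add]; omega
    have ht : (w.take W.b).length = W.b := by rw [List.length_take]; omega
    have hd : (w.drop W.b).length = W.b * n := by rw [List.length_drop, hw, mul_add]; omega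
    have hs : w.sum = (w.take W.b).sum + (w.drop W.b).sum := by
      rw [← List.sum_append, List.take_append_drop]
    show W.om (w.take W.b) * zwn W n (w.drop W.b) ≤ _
    calc W.om (w.take W.b) * zwn W n (w.drop W.b)
        ≤ (W.th ^ W.b * W.z ^ (w.take W.b).sum) * (W.th ^ (W.b * n) * W.z ^ (w.drop W.b).sum) :=
          mul_le_mul (W.dom _ ht) (ih hd) (zwn_pos _ _).le (by positivity)
      _ = W.th ^ (W.b * (n + 1)) * W.z ^ w.sum := by
          rw [hs, mul_add, mul_one, pow_add, pow_add]
          ring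

/-- total mass of the words of `n` blocks -/
theorem sum_zw_eq (A n : ℕ) :
    ∑ w ∈ FW A (W.b * n), zw p W w = (∑ u ∈ FW A W.b, W.om u) ^ n := by
  induction n with
  | zero => simp [FW, zw_nil]
  | succ n ih =>
    have e : W.b * (n + 1) = W.b + W.b * n := by ring
    rw [e, sum_FW_add, pow_succ', sum_mul]
    refine sum_congr rfl fun u hu => ?_
    rw [← ih, mul_sum]
    refine sum_congr rfl fun v hv => ?_
    have hul := (mem_FW.1 hu).1
    have hvl := (mem_FW.1 hv).1
    rw [zw_append (k := 1) (by rw [hul, mul_one]) hvl, zw_block hul]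

theorem sum_om_nonneg (A : ℕ) : 0 ≤ ∑ u ∈ FW A W.b, W.om u := sum_nonneg fun u _ => (W.pos u).le

theorem sum_zw_le (A n : ℕ) : ∑ w ∈ FW A (W.b * n), zw p W w ≤ (p : ℝ) ^ (W.b * n) := by
  rw [sum_zw_eq, pow_mul]
  exact pow_le_pow_left₀ (sum_om_nonneg A) (W.tot A) n

theorem sum_om_pos {A : ℕ} (hA : 1 ≤ A) : 0 < ∑ u ∈ FW A W.b, W.om u := by
  refine sum_pos (fun u _ => W.pos u) ⟨List.replicate W.b 1, ?_⟩
  rw [mem_FW]
  exact ⟨List.length_replicate, fun e he => by rw [List.eq_of_mem_replicate he]; omega⟩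

theorem sum_zw_pos {A : ℕ} (hA : 1 ≤ A) (n : ℕ) : 0 < ∑ w ∈ FW A (W.b * n), zw p W w := by
  rw [sum_zw_eq]
  exact pow_pos (sum_om_pos hA) n

/-- the sum of the powers of the weights -/
theorem sum_zw_pow_le {q : ℕ} (hq : 1 ≤ q) (A n : ℕ) :
    ∑ w ∈ FW A (W.b * n), zw p W w ^ q ≤ (p : ℝ) ^ (W.b * n) := by
  refine le_trans (sum_le_sum fun w _ => ?_) (sum_zw_le (W := W) A n)
  calc zw p W w ^ q ≤ zw p W w ^ 1 := pow_le_pow_of_le_one (zw_nonneg _) (zw_le_one _) hq
    _ = zw p W w := pow_one _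

end

end Pool.Agent.N685.WB
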