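import Pool.Agent.N685.WB.Stm

/-! Truncation at size `M b k` for the block weights (project FT, part WB-TR; port of the part
`truncation` of `Pool/Agent/Y966/NQ/Zsub.lean`). -/

set_option autoImplicit false
set_option linter.unusedVariables false

namespace Pool.Agent.N685.WB

open Finset Pool.Agent.H320R2.PD Pool.Agent.H377R2.NK

section Zsub

variable {p M : ℕ} {W : Alph p}

/-- the words of the tail -/
noncomputable def VT (p : ℕ) (W : Alph p) (M A k : ℕ) (x : ℤ) : Finset (List ℕ) :=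
  (VW p A (W.b * k) x).filter fun w => ¬ w.sum ≤ M * (W.b * k)

/-- the tail mass -/
noncomputable def vt (p : ℕ) (W : Alph p) (M A k : ℕ) (x : ℤ) : ℝ :=
  ∑ w ∈ VT p W M A k x, zw p W w

theorem VT_len {A k : ℕ} {x : ℤ} {w : List ℕ} (hw : w ∈ VT p W M A k x) :
    w.length = W.b * k := by
  unfold VT at hw
  exact (mem_VW.1 (Finset.mem_filter.1 hw).1).1

theorem VT_shift (A k : ℕ) (x y : ℤ) :
    VT p W M A k (x + (p : ℤ) ^ (W.b * k) * y) = VT p W M A k x := by
  unfold VT
  rw [VW_shift]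

theorem vt_nonneg (A k : ℕ) (x : ℤ) : 0 ≤ vt p W M A k x :=
  Finset.sum_nonneg fun w _ => zw_nonneg _

/-- the tail of the martingale -/
noncomputable def tl (p : ℕ) (W : Alph p) (M A k i : ℕ) (x : ℤ) : ℝ :=
  ∑ w ∈ VT p W M A k x, zw p W w * DB p W A i (en p w x)

theorem DB_split (hp : Odd p) (A k m : ℕ) (x : ℤ) :
    DB p W A (k + m) x = GG p W M A k m x + tl p W M A k m x := by
  rw [DB_add hp]
  unfold GG tl VS VT
  exact (Finset.sum_filter_add_sum_filter_not _ _ _).symm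

theorem tl_nonneg (A k m : ℕ) (x : ℤ) : 0 ≤ tl p W M A k m x := by
  unfold tl
  apply Finset.sum_nonneg
  intro w _
  exact mul_nonneg (zw_nonneg _) (DB_nonneg _ _ _)

theorem sum_tl_pow (hp : Odd p) {q : ℕ} (hq : 1 ≤ q) (A k m : ℕ) :
    ∑ x ∈ range (p ^ (W.b * (k + m))), tl p W M A k m (x : ℤ) ^ q ≤
      (∑ a ∈ range (p ^ (W.b * k)), vt p W M A k (a : ℤ) ^ q) * Zb p W A m q := by
  have hp1 : 1 ≤ p := hp.pos
  rw [mul_add, pow_add, sum_range_split _ _ (by positivity), Finset.sum_mul]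
  apply Finset.sum_le_sum
  intro a _
  have hzn : ∀ w : List ℕ, 0 ≤ zw p W w := fun w => zw_nonneg w
  have hstep : ∀ y ∈ range (p ^ (W.b * m)),
      tl p W M A k m ((a + p ^ (W.b * k) * y : ℕ) : ℤ) ^ q ≤
      vt p W M A k (a : ℤ) ^ (q - 1) * ∑ w ∈ VT p W M A k (a : ℤ), zw p W w *
        DB p W A m (en p w (a : ℤ) + 2 ^ w.sum * (y : ℤ)) ^ q := by
    intro y _
    have hc : ((a + p ^ (W.b * k) * y : ℕ) : ℤ) = (a : ℤ) + (p : ℤ) ^ (W.b * k) * (y : ℤ) := by
      push_cast
      ring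
    unfold tl
    rw [hc, VT_shift]
    refine (jensen_pow _ _ _ (fun w _ => hzn w) (fun w _ => DB_nonneg _ _ _) hq).trans ?_
    apply le_of_eq
    congr 1
    apply Finset.sum_congr rfl
    intro w hw
    have hl : w.length = W.b * k := VT_len hw
    have h1 := en_shift (w := w) hp1 (a : ℤ) (y : ℤ)
    rw [hl] at h1
    rw [h1]
  calc ∑ y ∈ range (p ^ (W.b * m)), tl p W M A k m ((a + p ^ (W.b * k) * y : ℕ) : ℤ) ^ q
      ≤ ∑ y ∈ range (p ^ (W.b * m)), vt p W M A k (a : ℤ) ^ (q - 1) *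
        ∑ w ∈ VT p W M A k (a : ℤ), zw p W w *
        DB p W A m (en p w (a : ℤ) + 2 ^ w.sum * (y : ℤ)) ^ q := Finset.sum_le_sum hstep
    _ = vt p W M A k (a : ℤ) ^ (q - 1) * ∑ w ∈ VT p W M A k (a : ℤ), zw p W w *
        ∑ y ∈ range (p ^ (W.b * m)), DB p W A m (en p w (a : ℤ) + 2 ^ w.sum * (y : ℤ)) ^ q := by
        rw [← Finset.mul_sum, Finset.sum_comm]
        congr 1
        apply Finset.sum_congr rfl
        intro w _
        rw [Finset.mul_sum]
    _ = vt p W M A k (a : ℤ) ^ (q - 1) * ∑ w ∈ VT p W M A k (a : ℤ), zw p W w * Zb p W A m q := by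
        congr 1
        apply Finset.sum_congr rfl
        intro w _
        congr 1
        exact U4_sum_aff hp A m w.sum (en p w (a : ℤ)) (fun y => y ^ q)
    _ = vt p W M A k (a : ℤ) ^ q * Zb p W A m q := by
        rw [← Finset.sum_mul, ← mul_assoc]
        congr 1
        have : ∑ w ∈ VT p W M A k (a : ℤ), zw p W w = vt p W M A k (a : ℤ) := rfl
        rw [this, ← pow_succ]
        congr 1
        omega

/-- a larger weight `z1 = (1 + z) / 2` -/
noncomputable def z1 (W : Alph p) : ℝ := (1 + W.z) / 2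

theorem z1_pos : 0 < z1 W := by
  have := W.hz
  unfold z1
  linarith

theorem z1_lt : z1 W < 1 := by
  have := W.hz1
  unfold z1
  linarith

theorem lt_z1 : W.z < z1 W := by
  have := W.hz1
  unfold z1
  linarith

/-- exponential decay of the tail (per letter) -/
noncomputable def rl (W : Alph p) (M : ℕ) : ℝ :=
  (W.z / z1 W) ^ M * (W.th * (z1 W / (1 - z1 W)))

theorem rl_nonneg : 0 ≤ rl W M := by
  have ht := W.hth
  have hz0 := W.hz
  have h1 := z1_pos (W := W)
  have h2 : 0 < 1 - z1 W := sub_pos.2 z1_lt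
  unfold rl
  positivity

theorem vt_le (A k : ℕ) (x : ℤ) : vt p W M A k x ≤ rl W M ^ (W.b * k) := by
  have ht := W.hth
  have hz0 := W.hz
  have hz1p := z1_pos (W := W)
  have hz1l := z1_lt (W := W)
  set r : ℝ := W.z / z1 W with hr
  have hr0 : 0 < r := by positivity
  have hr1 : r ≤ 1 := by
    rw [hr, div_le_one hz1p]
    exact lt_z1.le
  have hzz : W.z = r * z1 W := by
    rw [hr]
    field_simp
  have h1 : vt p W M A k x ≤
      ∑ w ∈ FW A (W.b * k), W.th ^ (W.b * k) * (r ^ (M * (W.b * k)) * z1 W ^ w.sum) := by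
    unfold vt
    calc ∑ w ∈ VT p W M A k x, zw p W w
        ≤ ∑ w ∈ VT p W M A k x, W.th ^ (W.b * k) * (r ^ (M * (W.b * k)) * z1 W ^ w.sum) := by
          apply Finset.sum_le_sum
          intro w hw
          have hl : w.length = W.b * k := VT_len hw
          have hs : M * (W.b * k) ≤ w.sum := by
            unfold VT at hw
            have := (Finset.mem_filter.1 hw).2
            omega
          refine (zw_dom hl).trans ?_
          apply mul_le_mul_of_nonneg_left _ (by positivity)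
          conv_lhs => rw [hzz, mul_pow]
          exact mul_le_mul_of_nonneg_right (pow_le_pow_of_le_one hr0.le hr1 hs) (by positivity)
      _ ≤ _ := by
          apply Finset.sum_le_sum_of_subset_of_nonneg
          · intro w hw
            unfold VT VW at hw
            exact (Finset.mem_filter.1 (Finset.mem_filter.1 hw).1).1
          · intro w _ _
            positivity
  refine h1.trans ?_
  rw [← Finset.mul_sum, ← Finset.mul_sum, Pool.Agent.H320R2.PD.sum_pow]
  have h2 : (∑ e ∈ Finset.Icc 1 A, z1 W ^ e) ^ (W.b * k) ≤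
      (z1 W / (1 - z1 W)) ^ (W.b * k) :=
    pow_le_pow_left₀ (Finset.sum_nonneg fun e _ => by positivity)
      (sum_Icc_pow_le A hz1p.le hz1l) _
  calc W.th ^ (W.b * k) * (r ^ (M * (W.b * k)) * (∑ e ∈ Finset.Icc 1 A, z1 W ^ e) ^ (W.b * k))
      ≤ W.th ^ (W.b * k) * (r ^ (M * (W.b * k)) * (z1 W / (1 - z1 W)) ^ (W.b * k)) := by
        apply mul_le_mul_of_nonneg_left _ (by positivity)
        exact mul_le_mul_of_nonneg_left h2 (by positivity)
    _ = rl W M ^ (W.b * k) := by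
        unfold rl
        rw [← hr, mul_pow, mul_pow, pow_mul]
        ring

/-- for all large cutoffs the tail is small -/
theorem exists_M (hp : Odd p) (W : Alph p) : ∃ M : ℕ, 1 ≤ M ∧
    (p : ℝ) * rl W M ^ 2 ≤ 1 / 100 ∧ rl W M ≤ 1 := by
  have ht := W.hth
  have hz0 := W.hz
  have hz1p := z1_pos (W := W)
  have hz1l : 0 < 1 - z1 W := sub_pos.2 z1_lt
  have hr0 : 0 ≤ W.z / z1 W := by positivity
  have hr1 : W.z / z1 W < 1 := by
    rw [div_lt_one hz1p]
    exact lt_z1
  have hp1 : (1 : ℝ) ≤ p := by exact_mod_cast hp.pos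
  set K : ℝ := W.th * (z1 W / (1 - z1 W)) with hK
  have hK0 : 0 < K := by positivity
  have ht1 : Filter.Tendsto (fun M : ℕ => (W.z / z1 W) ^ M * K) Filter.atTop (nhds (0 * K)) :=
    (tendsto_pow_atTop_nhds_zero_of_lt_one hr0 hr1).mul_const K
  rw [zero_mul] at ht1
  have hc : (0 : ℝ) < 1 / (10 * p) := by positivity
  obtain ⟨M, hM1, hM2⟩ := ((ht1.eventually (gt_mem_nhds hc)).and
    (Filter.eventually_ge_atTop 1)).exists
  have hM1' : rl W M < 1 / (10 * p) := hM1
  have hnn := rl_nonneg (M := M) (W := W)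
  refine ⟨M, hM2, ?_, ?_⟩
  · have h1 : rl W M ^ 2 ≤ (1 / (10 * p)) ^ 2 := pow_le_pow_left₀ hnn hM1'.le 2
    calc (p : ℝ) * rl W M ^ 2 ≤ p * (1 / (10 * p)) ^ 2 :=
          mul_le_mul_of_nonneg_left h1 (by positivity)
      _ = 1 / 100 * (1 / p) := by field_simp; norm_num
      _ ≤ 1 / 100 * 1 := by
          apply mul_le_mul_of_nonneg_left _ (by norm_num)
          rw [div_le_one (by positivity)]
          exact hp1
      _ = 1 / 100 := by norm_num
  · have h1 : (1 : ℝ) / (10 * p) ≤ 1 := by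
      rw [div_le_one (by positivity)]
      linarith
    linarith

/-- the truncation at size `M b k` is harmless -/
theorem ZG_ge (hodd : Odd p) {q : ℕ} (hq : 2 ≤ q) (A k m : ℕ)
    (hr1 : (p : ℝ) * rl W M ^ 2 ≤ 1 / 100) (hr2 : rl W M ≤ 1)
    (h : 2 ^ q * Zb p W A m q ≤ 100 ^ k * Zb p W A (k + m) q) :
    Zb p W A (k + m) q ≤ 2 ^ q * ZG p W M A k m q := by
  have hp1 : 1 ≤ p := hodd.pos
  have hb := W.hb
  have hρ0 : 0 ≤ rl W M := rl_nonneg
  have hvt : ∀ a : ℤ, vt p W M A k a ≤ rl W M ^ (W.b * k) := fun a => vt_le A k a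
  set ρ : ℝ := rl W M with hρ
  clear_value ρ
  -- split
  have h1 : Zb p W A (k + m) q ≤ 2 ^ (q - 1) * ZG p W M A k m q +
      2 ^ (q - 1) * ∑ x ∈ range (p ^ (W.b * (k + m))), tl p W M A k m (x : ℤ) ^ q := by
    unfold Zb ZG
    rw [Finset.mul_sum, Finset.mul_sum, ← Finset.sum_add_distrib]
    apply Finset.sum_le_sum
    intro x _
    rw [DB_split (M := M) hodd, ← mul_add]
    exact add_pow_le (GG_nonneg _ _ _ _) (tl_nonneg _ _ _ _) q
  have h2 := sum_tl_pow (M := M) (W := W) hodd (show 1 ≤ q by omega) A k m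
  have h3 : ∑ a ∈ range (p ^ (W.b * k)), vt p W M A k (a : ℤ) ^ q ≤ (1 / 100) ^ k := by
    calc ∑ a ∈ range (p ^ (W.b * k)), vt p W M A k (a : ℤ) ^ q
        ≤ ∑ a ∈ range (p ^ (W.b * k)), (ρ ^ (W.b * k)) ^ 2 := by
          apply Finset.sum_le_sum
          intro a _
          have hv := hvt (a : ℤ)
          have hv0 : 0 ≤ vt p W M A k (a : ℤ) := vt_nonneg _ _ _
          calc vt p W M A k (a : ℤ) ^ q ≤ (ρ ^ (W.b * k)) ^ q := pow_le_pow_left₀ hv0 hv q
            _ ≤ (ρ ^ (W.b * k)) ^ 2 :=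
              pow_le_pow_of_le_one (by positivity) (pow_le_one₀ hρ0 hr2) hq
      _ = (p * ρ ^ 2) ^ (W.b * k) := by
          rw [Finset.sum_const, Finset.card_range, nsmul_eq_mul, mul_pow, ← pow_mul, ← pow_mul,
            mul_comm (W.b * k) 2]
          push_cast
          rfl
      _ ≤ (1 / 100) ^ (W.b * k) := pow_le_pow_left₀ (by positivity) hr1 _
      _ ≤ (1 / 100) ^ k :=
          pow_le_pow_of_le_one (by norm_num) (by norm_num) (Nat.le_mul_of_pos_left k hb)
  have hZ0 := Zb_nonneg (p := p) (W := W) A m q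
  have h4 : ∑ x ∈ range (p ^ (W.b * (k + m))), tl p W M A k m (x : ℤ) ^ q ≤
      (1 / 100) ^ k * Zb p W A m q :=
    h2.trans (mul_le_mul_of_nonneg_right h3 hZ0)
  have h5 : 2 ^ q * ((1 / 100 : ℝ) ^ k * Zb p W A m q) ≤ Zb p W A (k + m) q := by
    have h6 : (1 / 100 : ℝ) ^ k * (2 ^ q * Zb p W A m q) ≤
        (1 / 100 : ℝ) ^ k * (100 ^ k * Zb p W A (k + m) q) :=
      mul_le_mul_of_nonneg_left h (by positivity)
    have h7 : (1 / 100 : ℝ) ^ k * (100 ^ k * Zb p W A (k + m) q) = Zb p W A (k + m) q := by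
      rw [← mul_assoc, ← mul_pow]
      norm_num
    rw [h7] at h6
    linarith
  have h8 : (2 : ℝ) ^ q = 2 * 2 ^ (q - 1) := by
    rw [← pow_succ']
    congr 1
    omega
  rw [h8] at h5 ⊢
  have h9 : (0 : ℝ) < 2 ^ (q - 1) := by positivity
  nlinarith [mul_le_mul_of_nonneg_left h4 h9.le]

end Zsub

theorem t_TR : S_TR := by
  intro p hp W
  have hodd : Odd p := by
    rcases hp with rfl | rfl
    · decide
    · decide
  obtain ⟨M, hM1, hM2, hM3⟩ := exists_M hodd W
  exact ⟨M, hM1, fun q hq A k m h => ZG_ge hodd hq A k m hM2 hM3 h⟩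

end Pool.Agent.N685.WB
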